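import Pool.Agent.MGT.P_EB
import Pool.Agent.MGT.Defs2

set_option autoImplicit false

/-!
# MGF: partition of a multigraph with `4k` vertices and maximum degree at most `2k - 1` into `k`
sets of four vertices inducing simple linear forests (MP_1b96da_co, case `s = 4`, all `k`).

`e : V → V → ℕ` is the multiplicity function (the edges are the MISSING arcs of the digraph);
`E e A B`, `dg e S v`, `Sym e` are as in project MGT (`Pool.Agent.MGT.Defs`, basic facts in
`Pool.Agent.MGT.p_EB`).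
-/

open Finset

namespace Pool.Agent.MGF

open Pool.Agent.MGT (E dg Sym)

variable {V : Type}

/-- Four different vertices such that all edges between them lie on the path `a b c d` and are
simple. -/
def Lin (e : V → V → ℕ) (a b c d : V) : Prop :=
  (a ≠ b ∧ a ≠ c ∧ a ≠ d ∧ b ≠ c ∧ b ≠ d ∧ c ≠ d) ∧
    (e a c = 0 ∧ e a d = 0 ∧ e b d = 0) ∧ e a b ≤ 1 ∧ e b c ≤ 1 ∧ e c d ≤ 1

/-- A good set: four vertices inducing a simple linear forest. -/
def Gd [DecidableEq V] (e : V → V → ℕ) (Q : Finset V) : Prop :=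
  ∃ a b c d, Q = {a, b, c, d} ∧ Lin e a b c d

/-- `Fact e S`: the set `S` can be partitioned into good sets. -/
inductive Fact [DecidableEq V] (e : V → V → ℕ) : Finset V → Prop
  | nil : Fact e ∅
  | add (S Q : Finset V) : Fact e S → Gd e Q → Disjoint Q S → Fact e (Q ∪ S)

/-- The theorem for one `k` (and the vertex type `V`). -/
def MG4 (V : Type) [DecidableEq V] (k : ℕ) : Prop :=
  ∀ (e : V → V → ℕ) (S : Finset V), Sym e → S.card = 4 * k →
    (∀ v ∈ S, dg e S v + 1 ≤ 2 * k) → Fact e S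

/-- The inequality (*) of the maximum cut. -/
def Star [DecidableEq V] (e : V → V → ℕ) (X : Finset V) : Prop :=
  ∀ P ⊆ X, P.Nonempty → 2 * E e P P + 4 * E e P (X \ P) + P.card * P.card + 2 * P.card
    ≤ 2 * (P.card * X.card)

/-- The tie rule, for a cut of a set with `n` vertices whose first part has `m` vertices. -/
def tau (n m : ℕ) : ℕ :=
  if m % 4 = 0 then n + 1 else if m % 4 = 1 then m else if m % 4 = 3 then n - m else 0

/-- `(X, Y)` is a non-trivial cut of value `2 e(X,Y) - |X||Y| ≥ 0`, maximum among the non-trivial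
cuts of `X ∪ Y`, and first in the tie rule among the maximum ones. -/
structure Opt [DecidableEq V] (e : V → V → ℕ) (X Y : Finset V) : Prop where
  sym : Sym e
  disj : Disjoint X Y
  neX : X.Nonempty
  neY : Y.Nonempty
  nn : X.card * Y.card ≤ 2 * E e X Y
  mx : ∀ X' Y' : Finset V, X'.Nonempty → Y'.Nonempty → Disjoint X' Y' → X' ∪ Y' = X ∪ Y →
    2 * E e X' Y' + X.card * Y.card ≤ 2 * E e X Y + X'.card * Y'.card
  tie : ∀ X' Y' : Finset V, X'.Nonempty → Y'.Nonempty → Disjoint X' Y' → X' ∪ Y' = X ∪ Y →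
    2 * E e X Y + X'.card * Y'.card ≤ 2 * E e X' Y' + X.card * Y.card →
    tau (X.card + Y.card) X'.card ≤ tau (X.card + Y.card) X.card

/-- Common assumptions: `r` is the residue of `|X|`. -/
structure Cfg [DecidableEq V] (e : V → V → ℕ) (X Y : Finset V) (p q r : ℕ) : Prop where
  sym : Sym e
  disj : Disjoint X Y
  cX : X.card = 4 * p + r
  cY : Y.card = 4 * q + (4 - r)
  dt : ∀ v ∈ X ∪ Y, dg e X v + dg e Y v ≤ 2 * p + 2 * q + 1

/-- A crossing good set with `r` vertices in `X`; outside of it the inner degrees are at most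
`2p - 1` in `X` and `2q - 1` in `Y`. -/
def Cross [DecidableEq V] (e : V → V → ℕ) (X Y : Finset V) (p q r : ℕ) : Prop :=
  ∃ Q, Gd e Q ∧ Q ⊆ X ∪ Y ∧ (Q ∩ X).card = r ∧
    (∀ v ∈ X \ Q, dg e (X \ Q) v + 1 ≤ 2 * p) ∧ ∀ v ∈ Y \ Q, dg e (Y \ Q) v + 1 ≤ 2 * q

end Pool.Agent.MGF
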