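import Pool.Agent.MGF.Targets
import Pool.Agent.MGT.P_MIS
import Pool.Agent.MGT.P_MISD

set_option autoImplicit false

/-!
# MGF: the digraph statement
-/

open Finset

namespace Pool.Agent.MGF

open Pool.Agent.MGT (E dg Sym mis Tour)

open scoped Classical in
theorem four (h_MG : T_MG) (h_EMB : T_EMB) (h_FAM : T_FAM) (h_FU : T_FU)
    (h_MIS : Pool.Agent.MGT.T_MIS) (h_MISD : Pool.Agent.MGT.T_MISD)
    (k : ℕ) (V : Type) [Fintype V] (D : Digraph V) (hloop : ∀ v, ¬ D.Adj v v)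
    (hV : Fintype.card V = 4 * k)
    (hdeg : ∀ v : V, 6 * k ≤ (univ.filter (fun w => D.Adj v w)).card +
        (univ.filter (fun w => D.Adj w v)).card + 1) :
    ∃ P : Fin k → Finset V, (∀ i, (P i).card = 4) ∧ (∀ i j, i ≠ j → Disjoint (P i) (P j)) ∧
      ∀ i (T : Digraph (Fin 4)), Tour T → ∃ f : Fin 4 → V, Function.Injective f ∧
        (∀ a, f a ∈ P i) ∧ ∀ a b, T.Adj a b → D.Adj (f a) (f b) := by
  have hs : Sym (mis D) := (h_MIS V D).1
  have hd : ∀ v ∈ (univ : Finset V), dg (mis D) univ v + 1 ≤ 2 * k := by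
    intro v _
    have h1 := h_MISD V D v hloop
    have h2 := hdeg v
    rw [hV] at h1
    omega
  have hF : Fact (mis D) (univ : Finset V) := h_MG V k (mis D) univ hs (by simpa using hV) hd
  obtain ⟨P, hP, hdis⟩ := h_FAM V (mis D) univ k hF (by simpa using hV)
  refine ⟨P, fun i => (h_FU V (mis D) (mis D)).2.2.2.2.2 _ (hP i).2, hdis, ?_⟩
  intro i T hT
  exact h_EMB V D (P i) (hP i).2 T hT

end Pool.Agent.MGF
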