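import Pool.Agent.MGF.Targets

set_option autoImplicit false

/-!
# MGF, targets CSW and AA
-/

open Finset

namespace Pool.Agent.MGF

open Pool.Agent.MGT (E dg Sym)

/-- CSW. -/
theorem p_CSW (h_FU : T_FU) : T_CSW := by
  intro V _ e X Y p q
  constructor
  · rintro ⟨h1, h2, h3, h4, h5⟩
    refine ⟨h1, h2.symm, by omega, by omega, ?_⟩
    intro v hv
    have := h5 v (by rw [Finset.union_comm]; exact hv)
    omega
  · rintro ⟨h1, h2, h3, h4, h5⟩ ⟨Q, hQ, hs, hc, hY, hX⟩
    obtain ⟨-, -, -, -, -, h6⟩ := h_FU V e e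
    have hQ4 := h6 Q hQ
    refine ⟨Q, hQ, by rw [Finset.union_comm]; exact hs, ?_, hX, hY⟩
    have hun : Q = Q ∩ X ∪ Q ∩ Y := by
      rw [← Finset.inter_union_distrib_left]
      exact (Finset.inter_eq_left.2 (by rw [Finset.union_comm]; exact hs)).symm
    have hdisj : Disjoint (Q ∩ X) (Q ∩ Y) :=
      h2.mono Finset.inter_subset_right Finset.inter_subset_right
    have hcard : Q.card = (Q ∩ X).card + (Q ∩ Y).card := by
      conv_lhs => rw [hun]
      exact Finset.card_union_of_disjoint hdisj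
    omega

/-- AA. -/
theorem p_AA (h_PXY : T_PXY) (h_HA1 : T_HA1) (h_CSW : T_CSW) : T_AA := by
  intro V _ e X Y p q x1 y1 hc hx hy hdx hdy he
  have hdtx := hc.dt x1 (Finset.mem_union_left _ hx)
  have hdty := hc.dt y1 (Finset.mem_union_right _ hy)
  have h01 : e x1 y1 = 0 ∨ e x1 y1 = 1 := by omega
  rcases h01 with h0 | h1
  · obtain ⟨x', hx', y', hy', hne, hne', hG⟩ :=
      h_PXY V e X Y p q x1 y1 hc hx hy h0 (by omega) (by omega)
    exact ⟨x', hx', y', hy', hne, hne', hG⟩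
  · rcases le_total p q with hpq | hpq
    · obtain ⟨x2, hx2, y2, hy2, hne, hne', hG⟩ :=
        h_HA1 V e X Y p q x1 y1 hc hx hy hdx hdy h1 hpq
      refine ⟨x2, hx2, y2, hy2, hne, hne', ?_⟩
      have hset : ({x1, y1, x2, y2} : Finset V) = {x1, x2, y1, y2} := by
        ext v; simp; tauto
      rw [hset]
      exact hG
    · obtain ⟨y2, hy2, x2, hx2, hne, hne', hG⟩ :=
        h_HA1 V e Y X q p y1 x1 ((h_CSW V e X Y p q).1 hc) hy hx hdy hdx
          (by rw [hc.sym.1]; exact h1) hpq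
      refine ⟨x2, hx2, y2, hy2, hne', hne, ?_⟩
      have hset : ({x1, y1, x2, y2} : Finset V) = {y1, y2, x1, x2} := by
        ext v; simp; tauto
      rw [hset]
      exact hG

end Pool.Agent.MGF
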