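import Pool.Agent.MGF.Targets

set_option autoImplicit false

/-!
# MGF: proof of the target BB (case B)
-/

open Finset

namespace Pool.Agent.MGF

open Pool.Agent.MGT (E dg Sym)

namespace BB_

variable {V : Type}

lemma card_filter (e : V → V → ℕ) (Y : Finset V) (x : V) :
    Y.card ≤ (Y.filter (fun y => e x y = 0)).card + dg e Y x := by
  have h1 : (Y.filter (fun y => ¬ e x y = 0)).card ≤ dg e Y x := by
    unfold dg
    rw [Finset.card_eq_sum_ones]
    calc ∑ _y ∈ Y.filter (fun y => ¬ e x y = 0), 1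
        ≤ ∑ y ∈ Y.filter (fun y => ¬ e x y = 0), e x y := by
          refine Finset.sum_le_sum fun y hy => ?_
          have h2 := (Finset.mem_filter.1 hy).2
          omega
      _ ≤ ∑ y ∈ Y, e x y :=
          Finset.sum_le_sum_of_subset (Finset.filter_subset _ _)
  have h2 := Finset.card_filter_add_card_filter_not (s := Y) (fun y => e x y = 0)
  omega

end BB_

open BB_ in
theorem p_BB (h_PXY : T_PXY) : T_BB := by
  intro V _ e X Y p q x1 hC hp hx1 hdx hY
  by_contra hcon
  obtain ⟨hEsymm, -, -, hEsum, -, -, -, -, -⟩ := Pool.Agent.MGT.p_EB V e hC.sym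
  have hdt1 := hC.dt x1 (Finset.mem_union_left _ hx1)
  have hcX := hC.cX
  have hcY := hC.cY
  set Y0 := Y.filter (fun y => e x1 y = 0) with hY0
  have hcard := card_filter e Y x1
  rw [← hY0] at hcard
  have hY0card : 2 * q + 1 ≤ Y0.card := by omega
  have hbig : ∀ y ∈ Y0, 6 * p + 2 ≤ dg e X y := by
    intro y hy
    obtain ⟨hyY, hy0⟩ := Finset.mem_filter.1 hy
    by_contra hlt
    have h1 := hY y hyY
    obtain ⟨x2, hx2, y2, hy2, hne, hne', hG⟩ := h_PXY V e X Y p q x1 y hC hx1 hyY hy0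
      (by omega) (by omega)
    exact hcon ⟨y, hyY, x2, hx2, y2, hy2, hne, hne', hG⟩
  obtain ⟨y, hy⟩ : Y0.Nonempty := by
    rw [← Finset.card_pos]
    omega
  have h2 := hbig y hy
  have h3 := hC.dt y (Finset.mem_union_right _ (Finset.mem_filter.1 hy).1)
  have h4 : (2 * q + 1) * (6 * p + 2) ≤ E e Y X := by
    rw [hEsum Y X]
    calc (2 * q + 1) * (6 * p + 2) ≤ Y0.card * (6 * p + 2) := Nat.mul_le_mul_right _ hY0card
      _ = ∑ _y ∈ Y0, (6 * p + 2) := by rw [Finset.sum_const, smul_eq_mul]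
      _ ≤ ∑ y ∈ Y0, dg e X y := Finset.sum_le_sum hbig
      _ ≤ ∑ y ∈ Y, dg e X y := Finset.sum_le_sum_of_subset (Finset.filter_subset _ _)
  have h5 : E e X Y ≤ (4 * p + 2) * (2 * p + 2 * q + 1) := by
    rw [hEsum X Y]
    calc ∑ x ∈ X, dg e Y x ≤ ∑ _x ∈ X, (2 * p + 2 * q + 1) := by
          refine Finset.sum_le_sum fun x hx => ?_
          have h6 := hC.dt x (Finset.mem_union_left _ hx)
          omega
      _ = X.card * (2 * p + 2 * q + 1) := by rw [Finset.sum_const, smul_eq_mul]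
      _ = (4 * p + 2) * (2 * p + 2 * q + 1) := by rw [hcX]
  rw [hEsymm X Y] at h5
  have h6 := h4.trans h5
  have h7 : 2 * p + 1 ≤ q := by omega
  nlinarith

end Pool.Agent.MGF
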