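import Pool.Agent.MGF.Targets

set_option autoImplicit false

/-!
# MGF: the target T_CC
-/

open Finset

namespace Pool.Agent.MGF

open Pool.Agent.MGT (E dg Sym)

namespace CC_

/-- One half of the case C, `q ≤ 2p`. -/
theorem half (h_PXY : T_PXY) (V : Type) [DecidableEq V] (e : V → V → ℕ) (X Y : Finset V)
    (p q : ℕ) (hC : Cfg e X Y p q 2) (hX : ∀ v ∈ X, dg e X v + 1 ≤ 2 * p)
    (hY : ∀ v ∈ Y, dg e Y v + 1 ≤ 2 * q) (hqp : q ≤ 2 * p) :
    ∃ x1 ∈ X, ∃ y1 ∈ Y, ∃ x2 ∈ X, ∃ y2 ∈ Y, x2 ≠ x1 ∧ y2 ≠ y1 ∧ Gd e {x1, y1, x2, y2} := by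
  by_contra hno
  have hcX : X.card = 4 * p + 2 := hC.cX
  have hcY : Y.card = 4 * q + 2 := hC.cY
  have key : ∀ x ∈ X, 4 * q + 2 ≤ dg e Y x := by
    intro x hx
    by_cases hall : ∀ y ∈ Y, e x y ≠ 0
    · have h1 : ∑ _w ∈ Y, 1 ≤ ∑ w ∈ Y, e x w :=
        Finset.sum_le_sum fun w hw => Nat.one_le_iff_ne_zero.2 (hall w hw)
      unfold dg
      simp only [sum_const, smul_eq_mul, mul_one] at h1
      omega
    · push Not at hall
      obtain ⟨y, hy, he⟩ := hall
      have hx1 := hX x hx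
      have hy1 := hY y hy
      have hd := hC.dt y (mem_union_right _ hy)
      have h2 : ¬ dg e Y x + dg e Y y < 8 * q + 2 := by
        intro h3
        obtain ⟨x', hx', y', hy', n1, n2, hG⟩ :=
          h_PXY V e X Y p q x y hC hx hy he (by omega) h3
        exact hno ⟨x, hx, y, hy, x', hx', y', hy', n1, n2, hG⟩
      omega
  have hne : X.Nonempty := by
    rw [← Finset.card_pos]
    omega
  obtain ⟨x0, hx0⟩ := hne
  have h1 := key x0 hx0
  have h2 := hC.dt x0 (mem_union_left _ hx0)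
  have hcomm : ∑ x ∈ X, dg e Y x = ∑ y ∈ Y, dg e X y := by
    unfold dg
    rw [Finset.sum_comm]
    exact Finset.sum_congr rfl fun b _ => Finset.sum_congr rfl fun a _ => hC.sym.1 a b
  have h3 : X.card * (4 * q + 2) ≤ ∑ x ∈ X, dg e Y x := by
    rw [← smul_eq_mul]
    exact Finset.card_nsmul_le_sum X _ _ key
  have h4 : ∃ y ∈ Y, 4 * p + 2 ≤ dg e X y := by
    by_contra hc
    push Not at hc
    have hYne : Y.Nonempty := by
      rw [← Finset.card_pos]
      omega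
    have h5 : ∑ y ∈ Y, dg e X y < ∑ _y ∈ Y, (4 * p + 2) :=
      Finset.sum_lt_sum_of_nonempty hYne hc
    simp only [sum_const, smul_eq_mul] at h5
    rw [hcX, hcomm] at h3
    rw [hcY] at h5
    nlinarith
  obtain ⟨y, hy, hy4⟩ := h4
  have h6 := hC.dt y (mem_union_right _ hy)
  omega

end CC_

theorem p_CC (h_PXY : T_PXY) (h_CSW : T_CSW) : T_CC := by
  intro V _ e X Y p q hC hX hY
  rcases Nat.lt_or_ge (2 * p) q with h | h
  · obtain ⟨y1, hy1, x1, hx1, y2, hy2, x2, hx2, n1, n2, hG⟩ :=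
      CC_.half h_PXY V e Y X q p ((h_CSW V e X Y p q).1 hC) hY hX (by omega)
    refine ⟨x1, hx1, y1, hy1, x2, hx2, y2, hy2, n2, n1, ?_⟩
    have hset : ({x1, y1, x2, y2} : Finset V) = {y1, x1, y2, x2} := by
      ext v
      simp only [mem_insert, mem_singleton]
      tauto
    rw [hset]
    exact hG
  · exact CC_.half h_PXY V e X Y p q hC hX hY h

end Pool.Agent.MGF
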