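import Pool.Agent.MGF.Targets

set_option autoImplicit false

/-!
# MGF: from a good set to a crossing set, and the final step (CRS, FIN)
-/

open Finset

namespace Pool.Agent.MGF

open Pool.Agent.MGT (E dg Sym)

/-- Degrees after the removal of a set. -/
theorem CRS_half {V : Type} [DecidableEq V] (e : V → V → ℕ) (X Q : Finset V) (p : ℕ)
    (h1 : ∀ v ∈ X, dg e X v ≤ 2 * p)
    (h2 : ∀ v ∈ X, v ∉ Q → dg e X v = 2 * p → ∃ w ∈ Q, w ∈ X ∧ 1 ≤ e v w) :
    ∀ v ∈ X \ Q, dg e (X \ Q) v + 1 ≤ 2 * p := by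
  intro v hv
  rw [Finset.mem_sdiff] at hv
  have hs : ∑ w ∈ X ∩ Q, e v w + ∑ w ∈ X \ Q, e v w = ∑ w ∈ X, e v w :=
    Finset.sum_inter_add_sum_sdiff X Q fun w => e v w
  have h3 := h1 v hv.1
  unfold dg at h3 ⊢
  by_cases hd : dg e X v = 2 * p
  · obtain ⟨w, hwQ, hwX, hw⟩ := h2 v hv.1 hv.2 hd
    have h4 : e v w ≤ ∑ w ∈ X ∩ Q, e v w :=
      Finset.single_le_sum (f := fun w => e v w) (fun _ _ => Nat.zero_le _)
        (Finset.mem_inter.2 ⟨hwX, hwQ⟩)
    omega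
  · unfold dg at hd
    omega

theorem p_CRS : T_CRS := by
  intro V _ e X Y Q p q r hQ hsub hr hX hY hX' hY'
  exact ⟨Q, hQ, hsub, hr, CRS_half e X Q p hX hX', CRS_half e Y Q q hY hY'⟩

theorem p_FIN (h_FU : T_FU) : T_FIN := by
  intro V _ e X Y p q r hr hC hX hp hq
  obtain ⟨Q, hQ, hsub, hcr, h1, h2⟩ := hX
  obtain ⟨-, -, -, h4, -, h6⟩ := h_FU V e e
  have hQ4 := h6 Q hQ
  have hcX := hC.cX
  have hcY := hC.cY
  have a1 := Finset.card_inter_add_card_sdiff X Q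
  have a2 := Finset.card_inter_add_card_sdiff Y Q
  have a3 : (Q ∩ X).card + (Q ∩ Y).card = Q.card := by
    rw [← Finset.card_union_of_disjoint, ← Finset.inter_union_distrib_left,
      Finset.inter_eq_left.2 hsub]
    exact hC.disj.mono Finset.inter_subset_right Finset.inter_subset_right
  rw [Finset.inter_comm] at a1 a2
  refine h4 X Y Q hC.disj hQ hsub (hp e _ hC.sym (by omega) h1) (hq e _ hC.sym (by omega) h2)

end Pool.Agent.MGF
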