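import Pool.Agent.MGF.Targets

set_option autoImplicit false

open Finset

namespace Pool.Agent.MGF

open Pool.Agent.MGT (E dg Sym)

/-- CST. -/
theorem p_CST : T_CST := by
  intro V _ e a b c d hs hab hac had hbc hbd hcd e0 hc hng
  have sab := hs.1 a b
  have sac := hs.1 a c
  have sad := hs.1 a d
  have sbc := hs.1 b c
  have sbd := hs.1 b d
  have scd := hs.1 c d
  have set1 : ({a, b, c, d} : Finset V) = {a, c, d, b} := by
    ext v; simp only [mem_insert, mem_singleton]; tauto
  have set2 : ({a, b, c, d} : Finset V) = {b, c, d, a} := by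
    ext v; simp only [mem_insert, mem_singleton]; tauto
  have set3 : ({a, b, c, d} : Finset V) = {c, a, d, b} := by
    ext v; simp only [mem_insert, mem_singleton]; tauto
  have set4 : ({a, b, c, d} : Finset V) = {c, b, d, a} := by
    ext v; simp only [mem_insert, mem_singleton]; tauto
  have set5 : ({a, b, c, d} : Finset V) = {c, d, a, b} := by
    ext v; simp only [mem_insert, mem_singleton]; tauto
  have set6 : ({a, b, c, d} : Finset V) = {c, d, b, a} := by
    ext v; simp only [mem_insert, mem_singleton]; tauto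
  have n1 : ¬ Lin e a c d b := fun h => hng ⟨a, c, d, b, set1, h⟩
  have n2 : ¬ Lin e b c d a := fun h => hng ⟨b, c, d, a, set2, h⟩
  have n3 : ¬ Lin e c a d b := fun h => hng ⟨c, a, d, b, set3, h⟩
  have n4 : ¬ Lin e c b d a := fun h => hng ⟨c, b, d, a, set4, h⟩
  have n5 : ¬ Lin e c d a b := fun h => hng ⟨c, d, a, b, set5, h⟩
  have n6 : ¬ Lin e c d b a := fun h => hng ⟨c, d, b, a, set6, h⟩
  refine ⟨?_, ?_⟩
  · by_contra hlt
    push Not at hlt
    rcases Nat.eq_zero_or_pos (e c d) with hw | hw
    · rcases Nat.eq_zero_or_pos (e c b) with hy | hy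
      · exact n3 ⟨⟨hac.symm, hcd, hbc.symm, had, hab, hbd.symm⟩, ⟨by omega, by omega, by omega⟩,
          by omega, by omega, by omega⟩
      · exact n4 ⟨⟨hbc.symm, hcd, hac.symm, hbd, hab.symm, had.symm⟩,
          ⟨by omega, by omega, by omega⟩, by omega, by omega, by omega⟩
    · rcases Nat.eq_zero_or_pos (e c b) with hy | hy
      · exact n1 ⟨⟨hac, had, hab, hcd, hbc.symm, hbd.symm⟩, ⟨by omega, by omega, by omega⟩,
          by omega, by omega, by omega⟩
      · exact n2 ⟨⟨hbc, hbd, hab.symm, hcd, hac.symm, had.symm⟩, ⟨by omega, by omega, by omega⟩,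
          by omega, by omega, by omega⟩
  · intro h0 h2
    by_contra hcon
    push Not at hcon
    rcases Nat.eq_zero_or_pos (e d b) with hv | hv
    · exact n5 ⟨⟨hcd, hac.symm, hbc.symm, had.symm, hbd.symm, hab⟩, ⟨by omega, by omega, by omega⟩,
        by omega, by omega, by omega⟩
    · exact n6 ⟨⟨hcd, hbc.symm, hac.symm, hbd.symm, had.symm, hab.symm⟩,
        ⟨by omega, by omega, by omega⟩, by omega, by omega, by omega⟩

end Pool.Agent.MGF
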