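import Pool.Agent.MGF.Targets

set_option autoImplicit false

/-!
# MGF, target D
-/

open Finset

namespace Pool.Agent.MGF

open Pool.Agent.MGT (E dg Sym)

namespace D_

variable {V : Type}

/-- The degree is monotone in the set. -/
theorem dg_mono (e : V → V → ℕ) {S T : Finset V} (h : S ⊆ T) (v : V) : dg e S v ≤ dg e T v :=
  Finset.sum_le_sum_of_subset h

/-- A vertex with small degree into `R` has many non-neighbours in `R`. -/
theorem card_nonnbr (e : V → V → ℕ) (R : Finset V) (x : V) :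
    R.card ≤ dg e R x + (R.filter (fun w => e x w = 0)).card := by
  have h1 : R.card = (R.filter (fun w => e x w = 0)).card +
      (R.filter (fun w => ¬ e x w = 0)).card :=
    (Finset.card_filter_add_card_filter_not (fun w => e x w = 0)).symm
  have h2 : (R.filter (fun w => ¬ e x w = 0)).card ≤ dg e R x := by
    rw [Finset.card_eq_sum_ones]
    refine le_trans ?_ (dg_mono e (Finset.filter_subset (fun w => ¬ e x w = 0) R) x)
    refine Finset.sum_le_sum fun w hw => ?_
    have := (Finset.mem_filter.1 hw).2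
    omega
  omega

/-- Double counting. -/
theorem count_swap (e : V → V → ℕ) (hs : Sym e) (A B : Finset V) :
    ∑ a ∈ A, dg e B a = ∑ b ∈ B, dg e A b := by
  unfold dg
  rw [Finset.sum_comm]
  refine Finset.sum_congr rfl fun b _ => Finset.sum_congr rfl fun a _ => ?_
  exact hs.1 a b

end D_

open D_ in
theorem p_D (h_PYY : T_PYY) : T_D := by
  classical
  intro V _ e X Y p q u c hp hY hu hdu
  by_contra hF
  obtain ⟨N, hN⟩ : ∃ N, N = (Y.erase u).filter (fun w => e u w = 0) := ⟨_, rfl⟩
  have hcY := c.cY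
  have hcX := c.cX
  have hNc : 2 * q + 2 ≤ N.card := by
    have h1 := card_nonnbr e (Y.erase u) u
    have h2 := dg_mono e (Finset.erase_subset u Y) u
    rw [Finset.card_erase_of_mem hu] at h1
    rw [← hN] at h1
    omega
  have hdt : ∀ v ∈ X ∪ Y, dg e X v + dg e Y v ≤ 2 * p + 2 * q + 1 := c.dt
  have hXu : dg e X u ≤ 2 * p + 1 := by
    have := hdt u (Finset.mem_union_right _ hu)
    omega
  have key : ∀ y ∈ N, 6 * p + 1 ≤ dg e X y := by
    intro y hy
    rw [hN, Finset.mem_filter, Finset.mem_erase] at hy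
    obtain ⟨⟨hyu, hyY⟩, h0⟩ := hy
    by_contra hlt
    obtain ⟨y3, hy3, x, hx, h1, h2, h3⟩ := h_PYY V e X Y p q u y c hu hyY (Ne.symm hyu) h0
      (by have := hY y hyY; omega) (by omega)
    exact hF ⟨y, hyY, y3, hy3, x, hx, hyu, h1, h2, h3⟩
  have hNY : N ⊆ Y := by
    rw [hN]
    exact (Finset.filter_subset _ _).trans (Finset.erase_subset _ _)
  obtain ⟨y, hy⟩ : N.Nonempty := by
    rw [← Finset.card_pos]
    omega
  have hq : 2 * p ≤ q := by
    have h1 := key y hy
    have h2 := hdt y (Finset.mem_union_right _ (hNY hy))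
    omega
  have h1 : N.card * (6 * p + 1) ≤ ∑ y ∈ N, dg e X y := by
    rw [← smul_eq_mul, ← Finset.sum_const]
    exact Finset.sum_le_sum key
  have h2 : ∑ y ∈ N, dg e X y ≤ ∑ y ∈ Y, dg e X y := Finset.sum_le_sum_of_subset hNY
  have h3 : ∑ y ∈ Y, dg e X y = ∑ x ∈ X, dg e Y x := count_swap e c.sym Y X
  have h4 : ∑ x ∈ X, dg e Y x ≤ X.card * (2 * p + 2 * q + 1) := by
    rw [← smul_eq_mul, ← Finset.sum_const]
    refine Finset.sum_le_sum fun x hx => ?_
    have := hdt x (Finset.mem_union_left _ hx)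
    omega
  rw [hcX] at h4
  have h5 : (2 * q + 2) * (6 * p + 1) ≤ N.card * (6 * p + 1) := Nat.mul_le_mul_right _ hNc
  have h6 : (2 * q + 2) * (6 * p + 1) ≤ (4 * p + 1) * (2 * p + 2 * q + 1) := by
    rw [h3] at h2
    exact h5.trans (h1.trans (h2.trans h4))
  nlinarith [Nat.mul_le_mul_left p hq]

end Pool.Agent.MGF
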