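import Pool.Agent.MGF.Targets

/-!
# MGF, DEG and SW
-/

set_option autoImplicit false

open Finset

namespace Pool.Agent.MGF

open Pool.Agent.MGT (E dg Sym)

/-- DEG. -/
theorem p_DEG : T_DEG := by
  intro V _ e X x hs hX hx
  have h := hX {x} (by simpa using hx) ⟨x, mem_singleton_self x⟩
  have h0 : E e {x} {x} = 0 := by simp [E, hs.2 x]
  have h1 : E e {x} (X \ {x}) = dg e X x := by
    unfold E dg
    rw [Finset.sum_singleton]
    rw [← Finset.sum_sdiff (Finset.singleton_subset_iff.2 hx)]
    simp [hs.2 x]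
  rw [h0, h1, Finset.card_singleton] at h
  omega

namespace DEG_

variable {V : Type} [DecidableEq V]

theorem E_ins (e : V → V → ℕ) (hs : Sym e) {A B : Finset V} {u v : V} (hu : u ∉ A)
    (hv : v ∉ B) : E e (insert u A) (insert v B) = e u v + dg e B u + dg e A v + E e A B := by
  unfold E dg
  rw [sum_insert hu, sum_insert hv]
  have h : ∑ a ∈ A, ∑ b ∈ insert v B, e a b = ∑ a ∈ A, e v a + ∑ a ∈ A, ∑ b ∈ B, e a b := by
    rw [← sum_add_distrib]
    refine sum_congr rfl fun a _ => ?_
    rw [sum_insert hv, hs.1 a v]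
  rw [h]
  ring

theorem dg_ins (e : V → V → ℕ) {A : Finset V} {u : V} (hu : u ∉ A) (w : V) :
    dg e (insert u A) w = e w u + dg e A w := by
  unfold dg
  rw [sum_insert hu]

end DEG_

open DEG_ in
/-- SW. -/
theorem p_SW : T_SW := by
  intro V _ e X Y x y hO hx hy
  have hs := hO.sym
  obtain ⟨A, hxA, rfl⟩ : ∃ A : Finset V, x ∉ A ∧ insert x A = X :=
    ⟨X.erase x, notMem_erase x X, insert_erase hx⟩
  obtain ⟨B, hyB, rfl⟩ : ∃ B : Finset V, y ∉ B ∧ insert y B = Y :=
    ⟨Y.erase y, notMem_erase y Y, insert_erase hy⟩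
  have hd := hO.disj
  rw [disjoint_left] at hd
  have hxy : x ≠ y := by
    rintro rfl
    exact hd (mem_insert_self _ _) (mem_insert_self _ _)
  have hyA : y ∉ A := fun h => hd (mem_insert_of_mem h) (mem_insert_self _ _)
  have hxB : x ∉ B := fun h => hd (mem_insert_self _ _) (mem_insert_of_mem h)
  have hAB : ∀ v ∈ A, v ∉ B := fun v h1 h2 => hd (mem_insert_of_mem h1) (mem_insert_of_mem h2)
  have hdis : Disjoint (insert y A) (insert x B) := by
    rw [disjoint_left]
    intro v h1 h2
    rcases mem_insert.1 h1 with rfl | h1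
    · rcases mem_insert.1 h2 with h2 | h2
      · exact hxy h2.symm
      · exact hyB h2
    · rcases mem_insert.1 h2 with rfl | h2
      · exact hxA h1
      · exact hAB v h1 h2
  have huni : insert y A ∪ insert x B = insert x A ∪ insert y B := by
    ext v
    simp only [mem_union, mem_insert]
    tauto
  have h := hO.mx (insert y A) (insert x B) (insert_nonempty _ _) (insert_nonempty _ _)
    hdis huni
  rw [card_insert_of_notMem hyA, card_insert_of_notMem hxB, card_insert_of_notMem hxA,
    card_insert_of_notMem hyB, E_ins e hs hyA hxB, E_ins e hs hxA hyB] at h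
  rw [dg_ins e hxA, dg_ins e hyB, dg_ins e hyB, dg_ins e hxA, hs.2 x, hs.2 y, hs.1 y x]
  rw [hs.1 y x] at h
  omega

end Pool.Agent.MGF
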