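import Pool.Agent.MGF.Targets

set_option autoImplicit false

/-!
# MGF: the target T_EE
-/

open Finset

namespace Pool.Agent.MGF

open Pool.Agent.MGT (E dg Sym)

namespace EE_

/-- The number of vertices adjacent to `y` is at most the degree. -/
lemma card_adj {V : Type} [DecidableEq V] (e : V → V → ℕ) (Y : Finset V) (y : V) :
    (Y.filter (fun v => ¬ e y v = 0)).card ≤ dg e Y y := by
  unfold dg
  rw [Finset.card_eq_sum_ones]
  calc ∑ _v ∈ Y.filter (fun v => ¬ e y v = 0), 1
      ≤ ∑ v ∈ Y.filter (fun v => ¬ e y v = 0), e y v := by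
        refine Finset.sum_le_sum (fun v hv => ?_)
        have h := (Finset.mem_filter.mp hv).2
        omega
    _ ≤ ∑ v ∈ Y, e y v :=
        Finset.sum_le_sum_of_subset_of_nonneg (Finset.filter_subset _ _)
          (fun _ _ _ => Nat.zero_le _)

lemma arith1 (p q m : ℕ) (h1 : 4 * p + 1 ≤ m) (h2 : m ≤ 2 * p + 2 * q + 1)
    (h3 : (4 * q + 3) * m ≤ (4 * p + 1) * (2 * p + 2 * q + 1)) : False := by
  have h4 : (4 * q + 3) * (4 * p + 1) ≤ (4 * p + 1) * (2 * p + 2 * q + 1) :=
    le_trans (Nat.mul_le_mul_left _ h1) h3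
  have h5 : (4 * p + 1) * (4 * q + 3) ≤ (4 * p + 1) * (2 * p + 2 * q + 1) := by
    rw [Nat.mul_comm (4 * p + 1) (4 * q + 3)]
    exact h4
  have h6 : 4 * q + 3 ≤ 2 * p + 2 * q + 1 := Nat.le_of_mul_le_mul_left h5 (by omega)
  omega

lemma arith2 (p q m c n r : ℕ) (h1 : m ≤ 4 * p) (hc : c + m = 8 * p + 2)
    (h2 : c ≤ 2 * p + 2 * q + 1) (hn : 2 * q + 3 ≤ n) (hr : n + r = 4 * q + 3)
    (h3 : n * c + r * m ≤ (4 * p + 1) * (2 * p + 2 * q + 1)) : False := by
  have hpq : p < q := by omega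
  obtain ⟨s, rfl⟩ : ∃ s, n = 2 * q + 3 + s := ⟨n - (2 * q + 3), by omega⟩
  have hr' : r + s = 2 * q := by omega
  have hcm : m ≤ c := by omega
  have h4 : s * m ≤ s * c := Nat.mul_le_mul_left _ hcm
  have h5 : (2 * q + 3) * c + 2 * q * m ≤ (4 * p + 1) * (2 * p + 2 * q + 1) := by
    have h6 : (2 * q + 3 + s) * c = (2 * q + 3) * c + s * c := by ring
    have h7 : 2 * q * m = r * m + s * m := by rw [← hr']; ring
    omega
  zify at *
  have hc' : (c : ℤ) = 8 * p + 2 - m := by linarith
  rw [hc'] at h5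
  nlinarith [mul_nonneg (Int.natCast_nonneg p) (sub_nonneg.mpr hpq.le)]

end EE_

open EE_ in
theorem p_EE (h_PYY : T_PYY) : T_EE := by
  intro V _ e X Y p q hC hp hY
  have hs : Sym e := hC.sym
  obtain ⟨hEs, -, -, hEd, -, -, -, -, -⟩ := Pool.Agent.MGT.p_EB V e hs
  have hcX := hC.cX
  have hcY := hC.cY
  have hcY' : Y.card = 4 * q + 3 := by omega
  have hYne : Y.Nonempty := by
    rw [← Finset.card_pos]
    omega
  obtain ⟨y1, hy1, hmin⟩ := Finset.exists_min_image Y (fun y => dg e X y) hYne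
  have hq : 1 ≤ q := by
    have := hY y1 hy1
    omega
  by_contra hno
  -- the upper bound of the number of crossing edges
  have htot : ∑ y ∈ Y, dg e X y ≤ (4 * p + 1) * (2 * p + 2 * q + 1) := by
    rw [← hEd Y X, hEs Y X, hEd X Y, ← hcX]
    have h1 : ∑ a ∈ X, dg e Y a ≤ X.card • (2 * p + 2 * q + 1) := by
      refine Finset.sum_le_card_nsmul _ _ _ (fun x hx => ?_)
      have := hC.dt x (Finset.mem_union_left _ hx)
      omega
    rw [smul_eq_mul] at h1
    exact h1
  have hdt1 := hC.dt y1 (Finset.mem_union_right _ hy1)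
  set m := dg e X y1 with hm
  have hminm : ∀ y ∈ Y, m ≤ dg e X y := fun y hy => hmin y hy
  rcases Nat.lt_or_ge m (4 * p + 1) with hlt | hge
  · -- `m ≤ 4p`
    set N := (Y.erase y1).filter (fun v => e y1 v = 0) with hN
    have hNsub : N ⊆ Y := (Finset.filter_subset _ _).trans (Finset.erase_subset _ _)
    have hNcard : 2 * q + 3 ≤ N.card := by
      have h1 : N.card + ((Y.erase y1).filter (fun v => ¬ e y1 v = 0)).card
          = (Y.erase y1).card := Finset.card_filter_add_card_filter_not _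
      have h2 : ((Y.erase y1).filter (fun v => ¬ e y1 v = 0)).card ≤ dg e Y y1 :=
        le_trans (Finset.card_le_card (Finset.filter_subset_filter _ (Finset.erase_subset _ _)))
          (card_adj e Y y1)
      have h3 := Finset.card_erase_of_mem hy1
      have h4 := hY y1 hy1
      omega
    have hNbig : ∀ y ∈ N, 8 * p + 2 - m ≤ dg e X y := by
      intro y2 hy2
      have hy2' := Finset.mem_filter.mp hy2
      have hy2Y : y2 ∈ Y := hNsub hy2
      have hne : y2 ≠ y1 := Finset.ne_of_mem_erase hy2'.1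
      by_contra hcon
      have h1 : dg e X y1 + dg e X y2 < 8 * p + 2 := by omega
      have h2 : dg e Y y1 + dg e Y y2 < 8 * q + 2 := by
        have h3 := hY y1 hy1
        have h4 := hY y2 hy2Y
        omega
      obtain ⟨y3, hy3, x, hx, h31, h32, hG⟩ :=
        h_PYY V e X Y p q y1 y2 hC hy1 hy2Y hne.symm hy2'.2 h2 h1
      exact hno ⟨y1, hy1, y2, hy2Y, y3, hy3, x, hx, hne.symm, h31.symm, h32.symm, hG⟩
    have hNne : N.Nonempty := by
      rw [← Finset.card_pos]
      omega
    obtain ⟨y2, hy2⟩ := hNne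
    have hc2 : 8 * p + 2 - m ≤ 2 * p + 2 * q + 1 := by
      have h1 := hNbig y2 hy2
      have h2 := hC.dt y2 (Finset.mem_union_right _ (hNsub hy2))
      omega
    have hsum : N.card * (8 * p + 2 - m) + (Y \ N).card * m ≤ ∑ y ∈ Y, dg e X y := by
      rw [← Finset.sum_sdiff hNsub]
      have h1 : N.card • (8 * p + 2 - m) ≤ ∑ y ∈ N, dg e X y :=
        Finset.card_nsmul_le_sum _ _ _ hNbig
      have h2 : (Y \ N).card • m ≤ ∑ y ∈ Y \ N, dg e X y :=
        Finset.card_nsmul_le_sum _ _ _ (fun y hy => hminm y (Finset.sdiff_subset hy))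
      rw [smul_eq_mul] at h1 h2
      omega
    have hcard : N.card + (Y \ N).card = 4 * q + 3 := by
      have h1 := Finset.card_sdiff_add_card_eq_card hNsub
      omega
    exact arith2 p q m (8 * p + 2 - m) N.card (Y \ N).card (by omega) (by omega) hc2 hNcard hcard
      (le_trans hsum htot)
  · have h1 : Y.card • m ≤ ∑ y ∈ Y, dg e X y := Finset.card_nsmul_le_sum _ _ _ hminm
    rw [smul_eq_mul, hcY'] at h1
    exact arith1 p q m hge (by omega) (le_trans h1 htot)

end Pool.Agent.MGF
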