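import Pool.Agent.MGF.Targets

set_option autoImplicit false

/-!
# MGF: embedding of the tournaments on four vertices into a good set (target EMB)
-/

open Finset

namespace Pool.Agent.MGF

open Pool.Agent.MGT (E dg Sym)

namespace EMB_

theorem adj_of_zero {V : Type} {D : Digraph V} {u v : V} (huv : u ≠ v)
    (h : Pool.Agent.MGT.mis D u v = 0) : D.Adj u v ∧ D.Adj v u := by
  classical
  unfold Pool.Agent.MGT.mis at h
  rw [if_neg huv] at h
  by_cases h1 : D.Adj u v
  · by_cases h2 : D.Adj v u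
    · exact ⟨h1, h2⟩
    · rw [if_neg h2] at h
      omega
  · rw [if_neg h1] at h
    omega

theorem adj_of_le {V : Type} {D : Digraph V} {u v : V} (huv : u ≠ v)
    (h : Pool.Agent.MGT.mis D u v ≤ 1) : ¬ D.Adj u v → D.Adj v u := by
  classical
  intro h1
  unfold Pool.Agent.MGT.mis at h
  rw [if_neg huv, if_neg h1] at h
  by_contra h2
  rw [if_neg h2] at h
  omega

end EMB_

theorem p_EMB (h_PTH : T_PTH) : T_EMB := by
  classical
  intro V _ D Q hQ T hT
  obtain ⟨a, b, c, d, rfl, ⟨hab, hac, had, hbc, hbd, hcd⟩, ⟨mac, mad, mbd⟩, mab, mbc, mcd⟩ := hQ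
  obtain ⟨g, hg, s1, s2, s3⟩ := h_PTH T hT (decide (D.Adj a b)) (decide (D.Adj b c))
    (decide (D.Adj c d))
  simp only [decide_eq_true_eq] at s1 s2 s3
  have hgb : Function.Bijective g := Finite.injective_iff_bijective.1 hg
  obtain ⟨ge, hge⟩ : ∃ ge : Fin 4 ≃ Fin 4, ∀ i, ge i = g i :=
    ⟨Equiv.ofBijective g hgb, fun i => rfl⟩
  obtain ⟨v, hv0, hv1, hv2, hv3⟩ : ∃ v : Fin 4 → V, v 0 = a ∧ v 1 = b ∧ v 2 = c ∧ v 3 = d :=
    ⟨![a, b, c, d], rfl, rfl, rfl, rfl⟩
  have hvinj : Function.Injective v := by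
    intro i j hij
    fin_cases i <;> fin_cases j <;> simp_all
  have hvmem : ∀ i, v i ∈ ({a, b, c, d} : Finset V) := by
    intro i
    fin_cases i <;> simp_all
  have hT1 : ∀ x y : Fin 4, T.Adj x y → ¬ T.Adj y x := by
    intro x y hxy
    by_cases hxy' : x = y
    · subst hxy'
      exact absurd hxy (hT.1 x)
    · exact (hT.2 x y hxy').1 hxy
  -- the arcs of the path
  have arc : ∀ (x y : Fin 4) (p q : V), p ≠ q → Pool.Agent.MGT.mis D p q ≤ 1 →
      (if D.Adj p q then T.Adj x y else T.Adj y x) →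
        (T.Adj x y → D.Adj p q) ∧ (T.Adj y x → D.Adj q p) := by
    intro x y p q hpq hm hs
    by_cases h : D.Adj p q
    · rw [if_pos h] at hs
      exact ⟨fun _ => h, fun h' => absurd h' (hT1 _ _ hs)⟩
    · rw [if_neg h] at hs
      exact ⟨fun h' => absurd h' (hT1 _ _ hs), fun _ => EMB_.adj_of_le hpq hm h⟩
  have e01 := arc _ _ a b hab mab s1
  have e12 := arc _ _ b c hbc mbc s2
  have e23 := arc _ _ c d hcd mcd s3
  have e02 := EMB_.adj_of_zero hac mac
  have e03 := EMB_.adj_of_zero had mad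
  have e13 := EMB_.adj_of_zero hbd mbd
  have main : ∀ i j : Fin 4, T.Adj (g i) (g j) → D.Adj (v i) (v j) := by
    intro i j hij
    fin_cases i <;> fin_cases j
    · exact absurd hij (hT.1 _)
    · change D.Adj (v 0) (v 1)
      rw [hv0, hv1]; exact e01.1 hij
    · change D.Adj (v 0) (v 2)
      rw [hv0, hv2]; exact e02.1
    · change D.Adj (v 0) (v 3)
      rw [hv0, hv3]; exact e03.1
    · change D.Adj (v 1) (v 0)
      rw [hv0, hv1]; exact e01.2 hij
    · exact absurd hij (hT.1 _)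
    · change D.Adj (v 1) (v 2)
      rw [hv1, hv2]; exact e12.1 hij
    · change D.Adj (v 1) (v 3)
      rw [hv1, hv3]; exact e13.1
    · change D.Adj (v 2) (v 0)
      rw [hv0, hv2]; exact e02.2
    · change D.Adj (v 2) (v 1)
      rw [hv1, hv2]; exact e12.2 hij
    · exact absurd hij (hT.1 _)
    · change D.Adj (v 2) (v 3)
      rw [hv2, hv3]; exact e23.1 hij
    · change D.Adj (v 3) (v 0)
      rw [hv0, hv3]; exact e03.2
    · change D.Adj (v 3) (v 1)
      rw [hv1, hv3]; exact e13.2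
    · change D.Adj (v 3) (v 2)
      rw [hv2, hv3]; exact e23.2 hij
    · exact absurd hij (hT.1 _)
  refine ⟨fun i => v (ge.symm i), hvinj.comp ge.symm.injective, fun i => hvmem _, ?_⟩
  intro i j hij
  refine main _ _ ?_
  rw [← hge, ← hge, Equiv.apply_symm_apply, Equiv.apply_symm_apply]
  exact hij

end Pool.Agent.MGF
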