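import Pool.Agent.MGF.Targets

set_option autoImplicit false

/-!
# MGF: from `Fact` to a family
-/

open Finset

namespace Pool.Agent.MGF

open Pool.Agent.MGT (E dg Sym)

theorem p_FAM (h_FU : T_FU) : T_FAM := by
  intro V _ e S k hF
  induction hF generalizing k with
  | nil =>
    intro h
    have hk : k = 0 := by simpa using h
    subst hk
    exact ⟨fun i => i.elim0, fun i => i.elim0, fun i => i.elim0⟩
  | add S Q hS hQ hdis ih =>
    intro h
    have hQ4 : Q.card = 4 := (h_FU V e e).2.2.2.2.2 Q hQ
    rw [card_union_of_disjoint hdis, hQ4] at h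
    obtain ⟨k', rfl⟩ : ∃ k', k = k' + 1 := ⟨k - 1, by omega⟩
    obtain ⟨P, hP, hPd⟩ := ih k' (by omega)
    refine ⟨Fin.cons Q P, ?_, ?_⟩
    · intro i
      refine Fin.cases ?_ (fun j => ?_) i
      · exact ⟨subset_union_left, hQ⟩
      · exact ⟨(hP j).1.trans subset_union_right, (hP j).2⟩
    · intro i j
      refine Fin.cases ?_ (fun i' => ?_) i
      · refine Fin.cases ?_ (fun j' => ?_) j
        · intro h; exact absurd rfl h
        · intro _
          exact disjoint_of_subset_right (hP j').1 hdis
      · refine Fin.cases ?_ (fun j' => ?_) j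
        · intro _
          exact (disjoint_of_subset_right (hP i').1 hdis).symm
        · intro h
          exact hPd i' j' fun hij => h (by rw [hij])

end Pool.Agent.MGF
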