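import Pool.Agent.MGF.Targets

set_option autoImplicit false

/-!
# MGF, target FU: basic facts on `Fact` and `Gd`
-/

open Finset

namespace Pool.Agent.MGF

open Pool.Agent.MGT (E dg Sym)

namespace FU_

variable {V : Type} [DecidableEq V]

lemma union {e : V → V → ℕ} {S T : Finset V} (hS : Fact e S) (hT : Fact e T)
    (hd : Disjoint S T) : Fact e (S ∪ T) := by
  induction hS with
  | nil => rw [empty_union]; exact hT
  | add S Q _ hQ hQS ih =>
    rw [union_assoc]
    rw [disjoint_union_left] at hd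
    exact Fact.add (S ∪ T) Q (ih hd.2) hQ (disjoint_union_right.2 ⟨hQS, hd.1⟩)

lemma gd_mono {e e' : V → V → ℕ} (h : ∀ a b, e a b ≤ e' a b) {Q : Finset V} (hQ : Gd e' Q) :
    Gd e Q := by
  obtain ⟨a, b, c, d, hq, hne, ⟨h1, h2, h3⟩, h4, h5, h6⟩ := hQ
  refine ⟨a, b, c, d, hq, hne, ⟨?_, ?_, ?_⟩, (h _ _).trans h4, (h _ _).trans h5,
    (h _ _).trans h6⟩
  · exact Nat.le_zero.1 (h1 ▸ h a c)
  · exact Nat.le_zero.1 (h2 ▸ h a d)
  · exact Nat.le_zero.1 (h3 ▸ h b d)

lemma fact_mono {e e' : V → V → ℕ} (h : ∀ a b, e a b ≤ e' a b) {S : Finset V}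
    (hS : Fact e' S) : Fact e S := by
  induction hS with
  | nil => exact Fact.nil
  | add S Q _ hQ hQS ih => exact Fact.add S Q ih (gd_mono h hQ) hQS

lemma gd_card {e : V → V → ℕ} {Q : Finset V} (hQ : Gd e Q) : Q.card = 4 := by
  obtain ⟨a, b, c, d, rfl, ⟨h1, h2, h3, h4, h5, h6⟩, -⟩ := hQ
  rw [card_insert_of_notMem (by simp [h1, h2, h3]), card_insert_of_notMem (by simp [h4, h5]),
    card_pair h6]

end FU_

open FU_ in
theorem p_FU : T_FU := by
  intro V _ e e'
  refine ⟨fun S T hS hT hd => union hS hT hd, fun Q h hQ => gd_mono h hQ,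
    fun S h hS => fact_mono h hS, ?_, ?_, fun Q hQ => gd_card hQ⟩
  · intro X Y Q hXY hQ hsub hX hY
    have h1 : X ∪ Y = Q ∪ ((X \ Q) ∪ (Y \ Q)) := by
      ext x
      simp only [mem_union, mem_sdiff]
      constructor
      · intro hx
        by_cases hq : x ∈ Q
        · exact Or.inl hq
        · rcases hx with hx | hx
          · exact Or.inr (Or.inl ⟨hx, hq⟩)
          · exact Or.inr (Or.inr ⟨hx, hq⟩)
      · rintro (hx | hx | hx)
        · exact mem_union.1 (hsub hx)
        · exact Or.inl hx.1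
        · exact Or.inr hx.1
    rw [h1]
    refine Fact.add _ Q (union hX hY ?_) hQ ?_
    · exact hXY.mono sdiff_subset sdiff_subset
    · rw [disjoint_union_right]
      exact ⟨disjoint_sdiff, disjoint_sdiff⟩
  · intro e'' S _ hc _
    have h1 : S = ∅ := by
      rw [← card_eq_zero]
      omega
    rw [h1]
    exact Fact.nil

end Pool.Agent.MGF
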