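import Pool.Agent.MGF.Targets

/-!
# MGF, HA1: one half of case A1
-/

set_option autoImplicit false

open Finset

namespace Pool.Agent.MGF

open Pool.Agent.MGT (E dg Sym)

namespace HA1_

variable {V : Type} [DecidableEq V]

theorem dg_erase (e : V → V → ℕ) {A : Finset V} {u : V} (hu : u ∈ A) (w : V) :
    dg e A w = dg e (A.erase u) w + e w u := by
  unfold dg
  rw [sum_erase_add _ _ hu]

/-- A vertex `x2 ≠ x1` with `e x1 x2 = 0` and `e y1 x2 = 0`. -/
theorem exists_x2 (e : V → V → ℕ) {X : Finset V} {p : ℕ} {x1 y1 : V} (hc : X.card = 4 * p + 2)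
    (hx : x1 ∈ X) (h1 : dg e X x1 ≤ 2 * p) (h2 : dg e X y1 ≤ e y1 x1 + 2 * p) :
    ∃ x2 ∈ X, x2 ≠ x1 ∧ e x1 x2 = 0 ∧ e y1 x2 = 0 := by
  by_contra hcon
  push Not at hcon
  have h3 : ∀ x ∈ X.erase x1, 1 ≤ e x1 x + e y1 x := by
    intro x hxe
    have h4 := mem_erase.1 hxe
    by_contra h5
    have h6 : e x1 x = 0 := by omega
    exact hcon x h4.2 h4.1 h6 (by omega)
  have h4 : (X.erase x1).card ≤ dg e (X.erase x1) x1 + dg e (X.erase x1) y1 := by
    unfold dg
    rw [← sum_add_distrib, card_eq_sum_ones]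
    exact sum_le_sum h3
  have h5 := dg_erase e hx x1
  have h6 := dg_erase e hx y1
  rw [card_erase_of_mem hx] at h4
  omega

end HA1_

open HA1_ in
/-- HA1. -/
theorem p_HA1 (h_HP : T_HP) : T_HA1 := by
  intro V _ e X Y p q x1 y1 hC hx1 hy1 hdx hdy he hpq
  have hs := hC.sym
  have hd := hC.disj
  rw [disjoint_left] at hd
  have cX := hC.cX
  have cY := hC.cY
  have t1 := hC.dt y1 (mem_union_right _ hy1)
  have t2 := hC.dt x1 (mem_union_left _ hx1)
  have he' : e y1 x1 = 1 := by rw [hs.1 y1 x1, he]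
  obtain ⟨x2, hx2, hne, h12, hy2⟩ := exists_x2 e (y1 := y1) cX hx1 (by omega) (by omega)
  have t3 := hC.dt x2 (mem_union_left _ hx2)
  by_contra hcon
  push Not at hcon
  have hbad : ∀ d ∈ Y.erase y1, ¬ Gd e {x1, x2, y1, d} := fun d hd' =>
    hcon x2 hx2 d (mem_erase.1 hd').2 hne (mem_erase.1 hd').1
  have hp := (h_HP V e (Y.erase y1) x1 x2 y1 hs hne.symm (fun h => hd hx1 (h ▸ hy1))
    (fun h => hd hx2 (h ▸ hy1)) (fun h => hd hx1 (mem_of_mem_erase h))
    (fun h => hd hx2 (mem_of_mem_erase h)) (notMem_erase _ _) h12 (by omega) hbad).1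
  have e1 := dg_erase e hy1 y1
  have e2 := dg_erase e hy1 x1
  have e3 := dg_erase e hy1 x2
  rw [card_erase_of_mem hy1] at hp
  omega

end Pool.Agent.MGF
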