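import Pool.Agent.MGF.Targets

set_option autoImplicit false

/-!
# MGF: half of the pair lemma
-/

open Finset

namespace Pool.Agent.MGF

open Pool.Agent.MGT (E dg Sym)

theorem p_HP (hCST : T_CST) : T_HP := by
  intro V _ e D a b c hs hab hac hbc haD hbD hcD he hc hG
  have h1 : ∀ d ∈ D, 2 ≤ e c d + (e a d + e b d) ∧
      (e c a + e c b = 0 → e c d + (e a d + e b d) = 2 → Even (e a d + e b d)) := by
    intro d hd
    have had : a ≠ d := fun h => haD (h ▸ hd)
    have hbd : b ≠ d := fun h => hbD (h ▸ hd)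
    have hcd : c ≠ d := fun h => hcD (h ▸ hd)
    have h := hCST V e a b c d hs hab hac had hbc hbd hcd he hc (hG d hd)
    rw [hs.1 d a, hs.1 d b] at h
    refine ⟨h.1, fun h1 h2 => ?_⟩
    rcases h.2 h1 h2 with h3 | h3
    · rw [h3]
      exact Even.zero
    · rw [h3]
      exact even_two
  have h2 : ∑ d ∈ D, (e c d + (e a d + e b d)) = dg e D c + (dg e D a + dg e D b) := by
    simp only [dg, Finset.sum_add_distrib]
  have h3 : ∑ d ∈ D, 2 ≤ ∑ d ∈ D, (e c d + (e a d + e b d)) :=
    Finset.sum_le_sum fun d hd => (h1 d hd).1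
  constructor
  · rw [Finset.sum_const, smul_eq_mul, h2] at h3
    omega
  · intro h4 h5
    have h6 : ∑ d ∈ D, 2 = ∑ d ∈ D, (e c d + (e a d + e b d)) := by
      rw [h2, Finset.sum_const, smul_eq_mul]
      omega
    have h7 := (Finset.sum_eq_sum_iff_of_le (fun d hd => (h1 d hd).1)).1 h6
    have h8 : dg e D a + dg e D b = ∑ d ∈ D, (e a d + e b d) := by
      simp only [dg, Finset.sum_add_distrib]
    rw [h8]
    exact Finset.even_sum _ (fun d hd => (h1 d hd).2 h4 (h7 d hd).symm)

end Pool.Agent.MGF
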