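import Pool.Agent.MGF.Targets

set_option autoImplicit false

/-!
# MGF: the target T_I2
-/

open Finset

namespace Pool.Agent.MGF

open Pool.Agent.MGT (E dg Sym)

namespace I2_

lemma dg_pair {V : Type} [DecidableEq V] (e : V → V → ℕ) (a b v : V) (h : a ≠ b) :
    dg e {a, b} v = e v a + e v b := by
  unfold dg
  rw [Finset.sum_pair h]

lemma E_pair {V : Type} [DecidableEq V] (e : V → V → ℕ) (B : Finset V) (a b : V) (h : a ≠ b) :
    E e {a, b} B = dg e B a + dg e B b := by
  unfold E dg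
  rw [Finset.sum_pair h]

lemma tau_zero (n p : ℕ) : tau n (4 * p) = n + 1 := by
  unfold tau
  have h : 4 * p % 4 = 0 := by omega
  rw [if_pos h]

lemma tau_two (n p : ℕ) : tau n (4 * p + 2) = 0 := by
  unfold tau
  have h0 : ¬ (4 * p + 2) % 4 = 0 := by omega
  have h1 : ¬ (4 * p + 2) % 4 = 1 := by omega
  have h3 : ¬ (4 * p + 2) % 4 = 3 := by omega
  rw [if_neg h0, if_neg h1, if_neg h3]

end I2_

open I2_ in
theorem p_I2 : T_I2 := by
  intro V _ e X Y p q u1 u2 ho hc hp hu1 hu2 hne hd1 hd2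
  by_contra hlt
  have h0 : e u1 u2 = 0 := by omega
  have hs : Sym e := hc.sym
  obtain ⟨hEs, hEr, hEl, -, hdu, -, -, -, -⟩ := Pool.Agent.MGT.p_EB V e hs
  have h0' : e u2 u1 = 0 := by rw [hs.1 u2 u1]; exact h0
  have hPX : ({u1, u2} : Finset V) ⊆ X := by
    intro v hv
    rw [Finset.mem_insert, Finset.mem_singleton] at hv
    rcases hv with rfl | rfl
    · exact hu1
    · exact hu2
  have hPc : ({u1, u2} : Finset V).card = 2 := Finset.card_pair hne
  generalize hP : ({u1, u2} : Finset V) = P at hPX hPc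
  have hdisj : Disjoint (X \ P) P := Finset.sdiff_disjoint
  have hun : (X \ P) ∪ P = X := Finset.sdiff_union_of_subset hPX
  have hYP : Disjoint Y P := by
    have := hc.disj
    exact (Finset.disjoint_of_subset_left hPX this).symm
  have hX'c : (X \ P).card = 4 * p := by
    have h1 := Finset.card_sdiff_add_card_eq_card hPX
    have h2 := hc.cX
    omega
  have hY'c : (Y ∪ P).card = 4 * q + 4 := by
    rw [Finset.card_union_of_disjoint hYP]
    have h2 := hc.cY
    omega
  have hXY' : Disjoint (X \ P) (Y ∪ P) := by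
    rw [Finset.disjoint_union_right]
    exact ⟨Finset.disjoint_of_subset_left Finset.sdiff_subset hc.disj, hdisj⟩
  have hUn : (X \ P) ∪ (Y ∪ P) = X ∪ Y := by
    rw [Finset.union_comm Y P, ← Finset.union_assoc, hun]
  have hneX : (X \ P).Nonempty := by
    rw [← Finset.card_pos, hX'c]
    omega
  have hneY : (Y ∪ P).Nonempty := by
    rw [← Finset.card_pos, hY'c]
    omega
  -- degrees
  have hX1 : dg e (X \ P) u1 = 2 * p := by
    have h1 := hdu (X \ P) P u1 hdisj
    rw [hun, hd1, ← hP, dg_pair e u1 u2 u1 hne, hs.2 u1, h0] at h1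
    rw [← hP]
    omega
  have hX2 : dg e (X \ P) u2 = 2 * p := by
    have h1 := hdu (X \ P) P u2 hdisj
    rw [hun, hd2, ← hP, dg_pair e u1 u2 u2 hne, hs.2 u2, h0'] at h1
    rw [← hP]
    omega
  have hEXP : E e (X \ P) P = 4 * p := by
    rw [hEs (X \ P) P]
    have h1 := E_pair e (X \ P) u1 u2 hne
    rw [hP] at h1
    omega
  have hEPY : E e P Y = dg e Y u1 + dg e Y u2 := by
    have h1 := E_pair e Y u1 u2 hne
    rw [hP] at h1
    exact h1
  have hb1 : dg e Y u1 ≤ 2 * q + 1 := by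
    have h1 := hc.dt u1 (Finset.mem_union_left _ hu1)
    omega
  have hb2 : dg e Y u2 ≤ 2 * q + 1 := by
    have h1 := hc.dt u2 (Finset.mem_union_left _ hu2)
    omega
  have hE1 : E e X Y = E e (X \ P) Y + E e P Y := by
    have h1 := hEl (X \ P) P Y hdisj
    rw [hun] at h1
    exact h1
  have hE2 : E e (X \ P) (Y ∪ P) = E e (X \ P) Y + E e (X \ P) P :=
    hEr (X \ P) Y P hYP
  have hval : 2 * E e X Y + (X \ P).card * (Y ∪ P).card ≤
      2 * E e (X \ P) (Y ∪ P) + X.card * Y.card := by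
    have h3 : Y.card = 4 * q + 2 := by
      have h2 := hc.cY
      omega
    rw [hX'c, hY'c, hc.cX, h3, hE1, hE2, hEXP, hEPY]
    nlinarith [hb1, hb2]
  have ht := ho.tie (X \ P) (Y ∪ P) hneX hneY hXY' hUn hval
  rw [hX'c, hc.cX, tau_zero, tau_two] at ht
  omega

end Pool.Agent.MGF
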