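import Pool.Agent.MGF.Targets

set_option autoImplicit false

/-!
# MGF, I4: tie rule for `|X| = 4p + 1`
-/

open Finset

namespace Pool.Agent.MGF

open Pool.Agent.MGT (E dg Sym)

namespace I4_

/-- Four different elements. -/
theorem card4 {V : Type} [DecidableEq V] {a b c d : V} (h1 : a ≠ b) (h2 : a ≠ c) (h3 : a ≠ d)
    (h4 : b ≠ c) (h5 : b ≠ d) (h6 : c ≠ d) : ({a, b, c, d} : Finset V).card = 4 := by
  rw [card_insert_of_notMem, card_insert_of_notMem, card_insert_of_notMem, card_singleton]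
  · simpa using h6
  · simp only [mem_insert, mem_singleton, not_or]
    exact ⟨h4, h5⟩
  · simp only [mem_insert, mem_singleton, not_or]
    exact ⟨h1, h2, h3⟩

/-- Sum over four different elements. -/
theorem sum4 {V : Type} [DecidableEq V] {a b c d : V} (h1 : a ≠ b) (h2 : a ≠ c) (h3 : a ≠ d)
    (h4 : b ≠ c) (h5 : b ≠ d) (h6 : c ≠ d) (f : V → ℕ) :
    ∑ v ∈ ({a, b, c, d} : Finset V), f v = f a + f b + f c + f d := by
  rw [sum_insert, sum_insert, sum_insert, sum_singleton]
  · ring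
  · simpa using h6
  · simp only [mem_insert, mem_singleton, not_or]
    exact ⟨h4, h5⟩
  · simp only [mem_insert, mem_singleton, not_or]
    exact ⟨h1, h2, h3⟩

end I4_

open I4_ in
theorem p_I4 : T_I4 := by
  intro V _ e X Y p q u1 u2 u3 u4 hO hC m1 m2 m3 m4 n12 n13 n14 n23 n24 n34 d1 d2 d3 d4
  by_contra hcon
  have hS := hO.sym
  obtain ⟨hcomm, hun2, hun1, hsum, -, -, -, -, -⟩ := Pool.Agent.MGT.p_EB V e hS
  have hs := hS.1
  have hz := hS.2
  have g21 := hs u2 u1
  have g31 := hs u3 u1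
  have g41 := hs u4 u1
  have g32 := hs u3 u2
  have g42 := hs u4 u2
  have g43 := hs u4 u3
  have z1 := hz u1
  have z2 := hz u2
  have z3 := hz u3
  have z4 := hz u4
  set P : Finset V := {u1, u2, u3, u4} with hP
  have hPc : P.card = 4 := card4 n12 n13 n14 n23 n24 n34
  have hPY : P ⊆ Y := by
    intro v hv
    rw [hP] at hv
    simp only [mem_insert, mem_singleton] at hv
    rcases hv with rfl | rfl | rfl | rfl
    · exact m1
    · exact m2
    · exact m3
    · exact m4
  have hcX := hC.cX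
  have hcY := hC.cY
  have hle := card_le_card hPY
  have hdXP : Disjoint X P := hC.disj.mono_right hPY
  have hYP : P ∪ (Y \ P) = Y := union_sdiff_of_subset hPY
  have hdPY : Disjoint P (Y \ P) := disjoint_sdiff
  have hcYP : (Y \ P).card = Y.card - 4 := by
    rw [card_sdiff_of_subset hPY, hPc]
  have hcXP : (X ∪ P).card = X.card + 4 := by
    rw [card_union_of_disjoint hdXP, hPc]
  -- the numbers of edges
  have e1 : E e (X ∪ P) (Y \ P) = E e X (Y \ P) + E e P (Y \ P) := hun1 X P (Y \ P) hdXP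
  have e2 : E e X Y = E e X P + E e X (Y \ P) := by
    rw [← hun2 X P (Y \ P) hdPY, hYP]
  have e3 : E e P Y = E e P P + E e P (Y \ P) := by
    rw [← hun2 P P (Y \ P) hdPY, hYP]
  have e4 : E e P Y = dg e Y u1 + dg e Y u2 + dg e Y u3 + dg e Y u4 := by
    rw [hsum]
    exact sum4 n12 n13 n14 n23 n24 n34 _
  have e5 : E e X P = dg e X u1 + dg e X u2 + dg e X u3 + dg e X u4 := by
    rw [hcomm, hsum]
    exact sum4 n12 n13 n14 n23 n24 n34 _
  have e6 : E e P P = 0 := by
    rw [hsum, sum4 n12 n13 n14 n23 n24 n34]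
    unfold Pool.Agent.MGT.dg
    rw [sum4 n12 n13 n14 n23 n24 n34, sum4 n12 n13 n14 n23 n24 n34, sum4 n12 n13 n14 n23 n24 n34,
      sum4 n12 n13 n14 n23 n24 n34]
    omega
  have t1 := hC.dt u1 (mem_union_right _ m1)
  have t2 := hC.dt u2 (mem_union_right _ m2)
  have t3 := hC.dt u3 (mem_union_right _ m3)
  have t4 := hC.dt u4 (mem_union_right _ m4)
  have hne1 : (X ∪ P).Nonempty := by
    rw [← card_pos]
    omega
  have hne2 : (Y \ P).Nonempty := by
    rw [← card_pos]
    omega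
  have hdd : Disjoint (X ∪ P) (Y \ P) := by
    rw [disjoint_union_left]
    exact ⟨hC.disj.mono_right sdiff_subset, hdPY⟩
  have huu : (X ∪ P) ∪ (Y \ P) = X ∪ Y := by
    rw [union_assoc, hYP]
  have hval : X.card * Y.card + 16 * q = (X ∪ P).card * (Y \ P).card + 16 * p + 8 := by
    obtain ⟨r, rfl⟩ : ∃ r, q = r + 1 := ⟨q - 1, by omega⟩
    rw [hcXP, hcYP, hcX, hcY]
    have h1 : 4 * (r + 1) + (4 - 1) - 4 = 4 * r + 3 := by omega
    have h2 : 4 * (r + 1) + (4 - 1) = 4 * r + 7 := by omega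
    rw [h1, h2]
    ring
  have htie := hO.tie (X ∪ P) (Y \ P) hne1 hne2 hdd huu (by omega)
  rw [hcXP, hcX] at htie
  unfold tau at htie
  have w1 : (4 * p + 1) % 4 = 1 := by omega
  have w2 : (4 * p + 1 + 4) % 4 = 1 := by omega
  rw [w1, w2] at htie
  simp only [one_ne_zero, if_false, if_true] at htie
  omega

end Pool.Agent.MGF
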