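import Pool.Agent.MGF.Targets

set_option autoImplicit false

/-!
# MGF, target MAIN: one step from an optimal cut
-/

open Finset

namespace Pool.Agent.MGF

open Pool.Agent.MGT (E dg Sym)

namespace MAIN_

/-- The case `|X| = 4p + 1`, `|Y| = 4q + 3`. -/
theorem case13 (h_DEG : T_DEG) (h_T13 : T_T13) (h_FIN : T_FIN)
    (V : Type) [DecidableEq V] (e : V → V → ℕ) (X Y : Finset V) (k p q : ℕ)
    (hX : X.card = 4 * p + 1) (hY : Y.card = 4 * q + 3) (hk : k = p + q + 1)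
    (hdeg : ∀ v ∈ X ∪ Y, dg e (X ∪ Y) v + 1 ≤ 2 * k) (ho : Opt e X Y) (sX : Star e X)
    (sY : Star e Y) (ih : ∀ j < k, MG4 V j) : Fact e (X ∪ Y) := by
  obtain ⟨-, -, -, -, h5, -, -, -, -⟩ := Pool.Agent.MGT.p_EB V e ho.sym
  have hc : Cfg e X Y p q 1 := by
    refine ⟨ho.sym, ho.disj, hX, by omega, ?_⟩
    intro v hv
    have h1 := hdeg v hv
    rw [h5 X Y v ho.disj] at h1
    omega
  have hcr : Cross e X Y p q 1 := by
    refine h_T13 V e X Y p q ho hc ?_ ?_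
    · intro v hv
      have := h_DEG V e X v ho.sym sX hv
      omega
    · intro v hv
      have := h_DEG V e Y v ho.sym sY hv
      omega
  exact h_FIN V e X Y p q 1 (by omega) hc hcr (ih p (by omega)) (ih q (by omega))

/-- The case `|X| = 4p + 2`, `|Y| = 4q + 2`. -/
theorem case22 (h_DEG : T_DEG) (h_T22 : T_T22) (h_FIN : T_FIN)
    (V : Type) [DecidableEq V] (e : V → V → ℕ) (X Y : Finset V) (k p q : ℕ) (hk2 : 2 ≤ k)
    (hX : X.card = 4 * p + 2) (hY : Y.card = 4 * q + 2) (hk : k = p + q + 1)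
    (hdeg : ∀ v ∈ X ∪ Y, dg e (X ∪ Y) v + 1 ≤ 2 * k) (ho : Opt e X Y) (sX : Star e X)
    (sY : Star e Y) (ih : ∀ j < k, MG4 V j) : Fact e (X ∪ Y) := by
  obtain ⟨-, -, -, -, h5, -, -, -, -⟩ := Pool.Agent.MGT.p_EB V e ho.sym
  have hc : Cfg e X Y p q 2 := by
    refine ⟨ho.sym, ho.disj, hX, by omega, ?_⟩
    intro v hv
    have h1 := hdeg v hv
    rw [h5 X Y v ho.disj] at h1
    omega
  have hcr : Cross e X Y p q 2 := by
    refine h_T22 V e X Y p q ho hc (by omega) ?_ ?_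
    · intro v hv
      have := h_DEG V e X v ho.sym sX hv
      omega
    · intro v hv
      have := h_DEG V e Y v ho.sym sY hv
      omega
  exact h_FIN V e X Y p q 2 (by omega) hc hcr (ih p (by omega)) (ih q (by omega))

end MAIN_

/-- MAIN. -/
theorem p_MAIN (h_STAR : T_STAR) (h_OSW : T_OSW) (h_DEG : T_DEG) (h_T13 : T_T13)
    (h_T22 : T_T22) (h_FIN : T_FIN) (h_FU : T_FU) : T_MAIN := by
  intro V _ e X Y k hk2 hc hdeg ho ih
  have hcard : X.card + Y.card = 4 * k := by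
    rw [← Finset.card_union_of_disjoint ho.disj, hc]
  have hX0 := ho.neX.card_pos
  have hY0 := ho.neY.card_pos
  have hu : X ∪ Y = Y ∪ X := Finset.union_comm X Y
  have ho' : Opt e Y X := h_OSW V e X Y ⟨k, hcard⟩ ho
  have sX : Star e X := h_STAR V e X Y k hc hdeg ho
  have sY : Star e Y := by
    rw [hu] at hc hdeg
    exact h_STAR V e Y X k hc hdeg ho'
  have hcase : (∃ p q, X.card = 4 * p ∧ Y.card = 4 * q ∧ p < k ∧ q < k) ∨
      (∃ p q, X.card = 4 * p + 1 ∧ Y.card = 4 * q + 3 ∧ k = p + q + 1) ∨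
      (∃ p q, X.card = 4 * p + 2 ∧ Y.card = 4 * q + 2 ∧ k = p + q + 1) ∨
      (∃ p q, Y.card = 4 * p + 1 ∧ X.card = 4 * q + 3 ∧ k = p + q + 1) := by
    have h3 : X.card % 4 = 0 ∨ X.card % 4 = 1 ∨ X.card % 4 = 2 ∨ X.card % 4 = 3 := by omega
    rcases h3 with h | h | h | h
    · exact Or.inl ⟨X.card / 4, Y.card / 4, by omega, by omega, by omega, by omega⟩
    · exact Or.inr (Or.inl ⟨X.card / 4, Y.card / 4, by omega, by omega, by omega⟩)
    · exact Or.inr (Or.inr (Or.inl ⟨X.card / 4, Y.card / 4, by omega, by omega, by omega⟩))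
    · exact Or.inr (Or.inr (Or.inr ⟨Y.card / 4, X.card / 4, by omega, by omega, by omega⟩))
  rcases hcase with ⟨p, q, hp, hq, hpk, hqk⟩ | ⟨p, q, hp, hq, hk⟩ | ⟨p, q, hp, hq, hk⟩ |
    ⟨p, q, hp, hq, hk⟩
  · obtain ⟨f1, -, -, -, -, -⟩ := h_FU V e e
    refine f1 X Y ?_ ?_ ho.disj
    · refine ih p hpk e X ho.sym hp ?_
      intro v hv
      have := h_DEG V e X v ho.sym sX hv
      omega
    · refine ih q hqk e Y ho.sym hq ?_
      intro v hv
      have := h_DEG V e Y v ho.sym sY hv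
      omega
  · exact MAIN_.case13 h_DEG h_T13 h_FIN V e X Y k p q hp hq hk hdeg ho sX sY ih
  · exact MAIN_.case22 h_DEG h_T22 h_FIN V e X Y k p q hk2 hp hq hk hdeg ho sX sY ih
  · rw [hu] at hdeg ⊢
    exact MAIN_.case13 h_DEG h_T13 h_FIN V e Y X k p q hp hq hk hdeg ho' sY sX ih

end Pool.Agent.MGF
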