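import Pool.Agent.MGF.Targets

set_option autoImplicit false

/-!
# MGF: the induction on `k`
-/

open Finset

namespace Pool.Agent.MGF

open Pool.Agent.MGT (E dg Sym)

theorem p_MG (h_FU : T_FU) (h_K1 : T_K1) (h_SAT : T_SAT) (h_OPT : T_OPT) (h_MAIN : T_MAIN) :
    T_MG := by
  intro V _ k
  induction k using Nat.strong_induction_on with
  | _ k ih =>
    rcases Nat.lt_or_ge k 2 with hk | hk
    · rcases Nat.lt_or_ge k 1 with hk0 | hk1
      · have hz : k = 0 := by omega
        subst hz
        exact (h_FU V (fun _ _ => 0) (fun _ _ => 0)).2.2.2.2.1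
      · have hz : k = 1 := by omega
        subst hz
        exact h_K1 V
    · intro e S hs hS hd
      obtain ⟨e', hs', hle, hd', X₀, Y₀, hX₀, hY₀, hdis, hun, hcut⟩ :=
        h_SAT V e S k hs (by omega) hS hd
      obtain ⟨X, Y, hXY, hopt⟩ := h_OPT V e' S X₀ Y₀ hs' hX₀ hY₀ hdis hun hcut
      have h1 : Fact e' (X ∪ Y) := h_MAIN V e' X Y k hk (by rw [hXY]; exact hS)
        (by rw [hXY]; exact hd') hopt ih
      rw [hXY] at h1
      exact (h_FU V e e').2.2.1 S hle h1

end Pool.Agent.MGF
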