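import Pool.Agent.MGF.Targets

set_option autoImplicit false

/-!
# MGF: the optimal cut
-/

open Finset

namespace Pool.Agent.MGF

open Pool.Agent.MGT (E dg Sym)

namespace OPT_

lemma tau_le (n m : ℕ) (h : m ≤ n) : tau n m ≤ n + 1 := by
  unfold tau
  split_ifs <;> omega

lemma tau_sub (n m : ℕ) (h4 : 4 ∣ n) (h : m ≤ n) : tau n (n - m) = tau n m := by
  unfold tau
  obtain ⟨k, rfl⟩ := h4
  have h1 : (4 * k - m) % 4 = (4 - m % 4) % 4 := by omega
  rw [h1]
  have h2 : m % 4 = 0 ∨ m % 4 = 1 ∨ m % 4 = 2 ∨ m % 4 = 3 := by omega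
  rcases h2 with h2 | h2 | h2 | h2
  · simp [h2]
  · simp [h2]
    omega
  · simp [h2]
  · simp [h2]

/-- The value of a cut. -/
def vl {V : Type} [DecidableEq V] (e : V → V → ℕ) (X Y : Finset V) : ℤ :=
  2 * (E e X Y : ℤ) - (X.card : ℤ) * Y.card

/-- The function which is maximised. -/
def fn {V : Type} [DecidableEq V] (e : V → V → ℕ) (S X : Finset V) : ℤ :=
  vl e X (S \ X) * ((S.card : ℤ) + 2) + (tau S.card X.card : ℤ)

lemma fn_lt {V : Type} [DecidableEq V] (e : V → V → ℕ) (S X X' : Finset V) (hX : X ⊆ S)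
    (h : vl e X (S \ X) + 1 ≤ vl e X' (S \ X')) : fn e S X < fn e S X' := by
  have h1 : (tau S.card X.card : ℤ) ≤ S.card + 1 := by
    exact_mod_cast tau_le _ _ (card_le_card hX)
  have h2 : (0 : ℤ) ≤ tau S.card X'.card := by positivity
  have h3 : (0 : ℤ) < (S.card : ℤ) + 2 := by positivity
  unfold fn
  nlinarith

lemma part {V : Type} [DecidableEq V] {S X Y : Finset V} (hd : Disjoint X Y) (hu : X ∪ Y = S) :
    Y = S \ X := by
  rw [← hu, union_sdiff_left, sdiff_eq_self_of_disjoint hd.symm]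

end OPT_

open OPT_

theorem p_OPT : T_OPT := by
  intro V _ e S X₀ Y₀ hs hX0 hY0 hd hu hv
  classical
  have hY0' := part hd hu
  have hX0S : X₀ ⊆ S := hu ▸ subset_union_left
  obtain ⟨X, hXm, hmax⟩ := Finset.exists_max_image
    (S.powerset.filter fun X => X.Nonempty ∧ (S \ X).Nonempty) (fn e S)
    ⟨X₀, by
      rw [mem_filter, mem_powerset]
      exact ⟨hX0S, hX0, hY0' ▸ hY0⟩⟩
  rw [mem_filter, mem_powerset] at hXm
  obtain ⟨hXS, hXn, hYn⟩ := hXm
  have hmax' : ∀ X' Y' : Finset V, X'.Nonempty → Y'.Nonempty → Disjoint X' Y' → X' ∪ Y' = S →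
      Y' = S \ X' ∧ fn e S X' ≤ fn e S X := by
    intro X' Y' h1 h2 h3 h4
    have h5 := part h3 h4
    refine ⟨h5, hmax X' ?_⟩
    rw [mem_filter, mem_powerset]
    exact ⟨h4 ▸ subset_union_left, h1, h5 ▸ h2⟩
  have hXu : X ∪ S \ X = S := union_sdiff_of_subset hXS
  have hcard : X.card + (S \ X).card = S.card := by
    rw [card_sdiff_of_subset hXS]
    have := card_le_card hXS
    omega
  have hle : ∀ X' Y' : Finset V, X'.Nonempty → Y'.Nonempty → Disjoint X' Y' → X' ∪ Y' = S →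
      vl e X' Y' ≤ vl e X (S \ X) := by
    intro X' Y' h1 h2 h3 h4
    obtain ⟨h5, h6⟩ := hmax' X' Y' h1 h2 h3 h4
    by_contra hcon
    push Not at hcon
    rw [h5] at hcon
    have h7 := fn_lt e S X X' hXS (by omega)
    omega
  refine ⟨X, S \ X, hXu, ⟨hs, disjoint_sdiff, hXn, hYn, ?_, ?_, ?_⟩⟩
  · have h1 := hle X₀ Y₀ hX0 hY0 hd hu
    unfold vl at h1
    have h2 : (X₀.card : ℤ) * Y₀.card ≤ 2 * E e X₀ Y₀ := by exact_mod_cast hv
    have h3 : (X.card : ℤ) * (S \ X).card ≤ 2 * E e X (S \ X) := by linarith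
    exact_mod_cast h3
  · intro X' Y' h1 h2 h3 h4
    rw [hXu] at h4
    have h5 := hle X' Y' h1 h2 h3 h4
    unfold vl at h5
    have h6 : 2 * (E e X' Y' : ℤ) + (X.card : ℤ) * (S \ X).card ≤
        2 * (E e X (S \ X) : ℤ) + (X'.card : ℤ) * Y'.card := by linarith
    exact_mod_cast h6
  · intro X' Y' h1 h2 h3 h4 h5
    rw [hXu] at h4
    obtain ⟨h6, h7⟩ := hmax' X' Y' h1 h2 h3 h4
    have h8 : vl e X (S \ X) ≤ vl e X' (S \ X') := by
      rw [← h6]
      unfold vl
      have : 2 * (E e X (S \ X) : ℤ) + (X'.card : ℤ) * Y'.card ≤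
        2 * (E e X' Y' : ℤ) + (X.card : ℤ) * (S \ X).card := by exact_mod_cast h5
      linarith
    unfold fn at h7
    rw [hcard]
    have h9 : (0 : ℤ) ≤ (S.card : ℤ) + 2 := add_nonneg (Int.natCast_nonneg _) (by norm_num)
    have h11 := mul_le_mul_of_nonneg_right h8 h9
    have h10 : (tau S.card X'.card : ℤ) ≤ tau S.card X.card := by linarith
    exact_mod_cast h10

theorem p_OSW : T_OSW := by
  intro V _ e X Y h4 h
  have hE := (Pool.Agent.MGT.p_EB V e h.sym).1
  refine ⟨h.sym, h.disj.symm, h.neY, h.neX, ?_, ?_, ?_⟩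
  · rw [mul_comm, hE Y X]
    exact h.nn
  · intro X' Y' h1 h2 h3 h5
    have h6 := h.mx Y' X' h2 h1 h3.symm (by rw [union_comm, h5, union_comm])
    rw [hE X' Y', hE Y X, mul_comm Y.card, mul_comm X'.card]
    exact h6
  · intro X' Y' h1 h2 h3 h5 h6
    have h7 := h.tie Y' X' h2 h1 h3.symm (by rw [union_comm, h5, union_comm]) (by
      rw [hE X Y, hE Y' X', mul_comm Y'.card, mul_comm X.card]
      exact h6)
    have hc : X'.card + Y'.card = Y.card + X.card := by
      rw [← card_union_of_disjoint h3, h5, card_union_of_disjoint h.disj.symm]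
    have e1 : tau (Y.card + X.card) X'.card = tau (X.card + Y.card) Y'.card := by
      rw [add_comm Y.card X.card, ← tau_sub (X.card + Y.card) Y'.card h4 (by omega)]
      congr 1
      omega
    have e2 : tau (Y.card + X.card) Y.card = tau (X.card + Y.card) X.card := by
      rw [add_comm Y.card X.card, ← tau_sub (X.card + Y.card) X.card h4 (by omega)]
      congr 1
      omega
    rw [e1, e2]
    exact h7

end Pool.Agent.MGF
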