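import Pool.Agent.MGF.Targets

set_option autoImplicit false

/-! Target P0 of the project MGF: type (2,2) with `p = 0`. -/

open Finset

namespace Pool.Agent.MGF

open Pool.Agent.MGT (E dg Sym)

theorem p_P0 (h_HP : T_HP) (h_CRS : T_CRS) : T_P0 := by
  intro V _ e X Y q hcfg hq hX0 hYd hU
  have hsym := hcfg.sym
  have hcX : X.card = 2 := by have := hcfg.cX; omega
  have hcY : Y.card = 4 * q + 2 := by have := hcfg.cY; omega
  obtain ⟨x1, x2, hx12, hXeq⟩ := Finset.card_eq_two.1 hcX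
  have hx1 : x1 ∈ X := by rw [hXeq]; simp
  have hx2 : x2 ∈ X := by rw [hXeq]; simp
  have hdX : ∀ v, dg e X v = e v x1 + e v x2 := by
    intro v
    unfold dg
    rw [hXeq, Finset.sum_pair hx12]
  have he12 : e x1 x2 = 0 := by
    have h1 := hX0 x1 hx1
    rw [hdX] at h1
    omega
  have hdY1 : dg e Y x1 ≤ 2 * q + 1 := by
    have h1 := hcfg.dt x1 (mem_union_left _ hx1)
    have h2 := hX0 x1 hx1
    omega
  have hdY2 : dg e Y x2 ≤ 2 * q + 1 := by
    have h1 := hcfg.dt x2 (mem_union_left _ hx2)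
    have h2 := hX0 x2 hx2
    omega
  have hsum : ∑ y ∈ Y, (e y x1 + e y x2) = dg e Y x1 + dg e Y x2 := by
    unfold dg
    rw [← Finset.sum_add_distrib]
    apply Finset.sum_congr rfl
    intro y _
    rw [hsym.1 y x1, hsym.1 y x2]
  have hxY1 : x1 ∉ Y := Finset.disjoint_left.1 hcfg.disj hx1
  have hxY2 : x2 ∉ Y := Finset.disjoint_left.1 hcfg.disj hx2
  -- the vertex `y1`
  obtain ⟨y1, hy1, ht1, hfull⟩ : ∃ y1 ∈ Y, e y1 x1 + e y1 x2 ≤ 1 ∧
      ∀ v ∈ Y, v ≠ y1 → dg e Y v = 2 * q → 1 ≤ e v y1 := by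
    by_cases hex : ∃ u ∈ Y, dg e Y u = 2 * q
    · obtain ⟨u, hu, hdu⟩ := hex
      refine ⟨u, hu, ?_, fun v hv hvu hdv => hU v hv u hu hvu hdv hdu⟩
      have h1 := hcfg.dt u (mem_union_right _ hu)
      rw [hdX u] at h1
      omega
    · push Not at hex
      by_contra hcon
      push Not at hcon
      have h1 : ∀ y ∈ Y, 2 ≤ e y x1 + e y x2 := by
        intro y hy
        by_contra hlt
        obtain ⟨v, hv, -, hdv, -⟩ := hcon y hy (by omega)
        exact hex v hv hdv
      have h2 : Y.card * 2 ≤ ∑ y ∈ Y, (e y x1 + e y x2) := by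
        rw [← smul_eq_mul]
        exact Finset.card_nsmul_le_sum Y _ 2 h1
      omega
  have hy1x1 : x1 ≠ y1 := fun h => hxY1 (h ▸ hy1)
  have hy1x2 : x2 ≠ y1 := fun h => hxY2 (h ▸ hy1)
  -- the vertex `y2`
  obtain ⟨y2, hy2, hgd⟩ : ∃ y2 ∈ Y.erase y1, Gd e {x1, x2, y1, y2} := by
    by_contra hcon
    push Not at hcon
    have h1 := (h_HP V e (Y.erase y1) x1 x2 y1 hsym hx12 hy1x1 hy1x2
      (fun h => hxY1 (mem_of_mem_erase h)) (fun h => hxY2 (mem_of_mem_erase h))
      (notMem_erase y1 Y) he12 ht1 hcon).1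
    have hmono : ∀ v, dg e (Y.erase y1) v ≤ dg e Y v := fun v =>
      Finset.sum_le_sum_of_subset (erase_subset y1 Y)
    have h2 := hmono y1
    have h3 := hmono x1
    have h4 := hmono x2
    have h5 := hYd y1 hy1
    rw [card_erase_of_mem hy1] at h1
    omega
  have hy2Y := mem_of_mem_erase hy2
  apply h_CRS V e X Y {x1, x2, y1, y2} 0 q 2 hgd
  · intro v hv
    simp only [mem_insert, mem_singleton] at hv
    rcases hv with rfl | rfl | rfl | rfl
    · exact mem_union_left _ hx1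
    · exact mem_union_left _ hx2
    · exact mem_union_right _ hy1
    · exact mem_union_right _ hy2Y
  · have h1 : ({x1, x2, y1, y2} : Finset V) ∩ X = X := by
      apply Finset.inter_eq_right.2
      rw [hXeq]
      intro v hv
      simp only [mem_insert, mem_singleton] at hv ⊢
      tauto
    rw [h1, hcX]
  · intro v hv
    have := hX0 v hv
    omega
  · exact hYd
  · intro v hv hvQ _
    exfalso
    apply hvQ
    rw [hXeq] at hv
    simp only [mem_insert, mem_singleton] at hv ⊢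
    tauto
  · intro v hv hvQ hdv
    refine ⟨y1, by simp, hy1, hfull v hv ?_ hdv⟩
    rintro rfl
    exact hvQ (by simp)

end Pool.Agent.MGF
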