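import Pool.Agent.MGF.Targets

set_option autoImplicit false

open Finset

namespace Pool.Agent.MGF

open Pool.Agent.MGT (E dg Sym)

namespace PL_

/-- A vertex with at most one edge to the pair. -/
theorem exists_small {V : Type} (e : V → V → ℕ) (C : Finset V) (a b : V) (hs : Sym e)
    (h : dg e C a + dg e C b < 2 * C.card) : ∃ c ∈ C, e c a + e c b ≤ 1 := by
  by_contra hcon
  push Not at hcon
  have h1 : ∑ _c ∈ C, 2 ≤ ∑ c ∈ C, (e a c + e b c) := by
    apply Finset.sum_le_sum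
    intro c hc
    have h2 := hcon c hc
    rw [hs.1 c a, hs.1 c b] at h2
    omega
  rw [Finset.sum_const, smul_eq_mul, Finset.sum_add_distrib] at h1
  unfold Pool.Agent.MGT.dg at h
  omega

end PL_

/-- PL. -/
theorem p_PL (h_HP : T_HP) : T_PL := by
  intro V _ e C D a b k hs hab haC haD hbC hbD hCD hcard e0 hdeg hC hD
  by_contra hcon
  push Not at hcon
  obtain ⟨c0, hc0, ht⟩ := PL_.exists_small e C a b hs hC
  obtain ⟨d0, hd0, hu⟩ := PL_.exists_small e D a b hs hD
  have hc0D : c0 ∉ D := Finset.disjoint_left.1 hCD hc0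
  have hd0C : d0 ∉ C := Finset.disjoint_right.1 hCD hd0
  have hac : a ≠ c0 := fun h => haC (h ▸ hc0)
  have hbc : b ≠ c0 := fun h => hbC (h ▸ hc0)
  have had : a ≠ d0 := fun h => haD (h ▸ hd0)
  have hbd : b ≠ d0 := fun h => hbD (h ▸ hd0)
  obtain ⟨A1, A3⟩ := h_HP V e D a b c0 hs hab hac hbc haD hbD hc0D e0 ht
    (fun d hd => hcon c0 hc0 d hd)
  obtain ⟨A2, -⟩ := h_HP V e C a b d0 hs hab had hbd haC hbC hd0C e0 hu (by
    intro c hc
    have h1 : ({a, b, d0, c} : Finset V) = {a, b, c, d0} := by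
      ext v; simp only [mem_insert, mem_singleton]; tauto
    rw [h1]
    exact hcon c hc d0 hd0)
  have ga := hdeg a (Or.inl rfl)
  have gb := hdeg b (Or.inr (Or.inl rfl))
  have gc := hdeg c0 (Or.inr (Or.inr (Or.inl hc0)))
  have gd := hdeg d0 (Or.inr (Or.inr (Or.inr hd0)))
  obtain ⟨r, hr⟩ := A3 (by omega) (by omega)
  omega

end Pool.Agent.MGF
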