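import Pool.Agent.MGF.Targets

set_option autoImplicit false

/-!
# MGF: every tournament on four vertices contains every oriented path on four vertices
-/

open Finset

namespace Pool.Agent.MGF

namespace PTH_

/-- Adjacency of the tournament on `Fin 4` given by six Booleans: `x i j` for `i < j`. -/
def adj (x01 x02 x03 x12 x13 x23 : Bool) (i j : Fin 4) : Bool :=
  match i, j with
  | 0, 1 => x01
  | 0, 2 => x02
  | 0, 3 => x03
  | 1, 2 => x12
  | 1, 3 => x13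
  | 2, 3 => x23
  | 1, 0 => !x01
  | 2, 0 => !x02
  | 3, 0 => !x03
  | 2, 1 => !x12
  | 3, 1 => !x13
  | 3, 2 => !x23
  | 0, 0 => false
  | 1, 1 => false
  | 2, 2 => false
  | 3, 3 => false

/-- a step of the path -/
def stp (A : Fin 4 → Fin 4 → Bool) (s : Bool) (i j : Fin 4) : Bool :=
  if s then A i j else A j i

/-- the path `a b c d` with the directions `s1 s2 s3` -/
def pth (A : Fin 4 → Fin 4 → Bool) (s1 s2 s3 : Bool) (a b c d : Fin 4) : Bool :=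
  stp A s1 a b && stp A s2 b c && stp A s3 c d

/-- the 24 permutations, as quadruples -/
def perms : List (Fin 4 × Fin 4 × Fin 4 × Fin 4) :=
  [(0,1,2,3),(0,1,3,2),(0,2,1,3),(0,2,3,1),(0,3,1,2),(0,3,2,1),
   (1,0,2,3),(1,0,3,2),(1,2,0,3),(1,2,3,0),(1,3,0,2),(1,3,2,0),
   (2,0,1,3),(2,0,3,1),(2,1,0,3),(2,1,3,0),(2,3,0,1),(2,3,1,0),
   (3,0,1,2),(3,0,2,1),(3,1,0,2),(3,1,2,0),(3,2,0,1),(3,2,1,0)]

theorem perms_ne : ∀ p ∈ perms, p.1 ≠ p.2.1 ∧ p.1 ≠ p.2.2.1 ∧ p.1 ≠ p.2.2.2 ∧ p.2.1 ≠ p.2.2.1 ∧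
    p.2.1 ≠ p.2.2.2 ∧ p.2.2.1 ≠ p.2.2.2 := by
  decide +kernel

theorem key : ∀ x01 x02 x03 x12 x13 x23 s1 s2 s3 : Bool,
    perms.any (fun p => pth (adj x01 x02 x03 x12 x13 x23) s1 s2 s3 p.1 p.2.1 p.2.2.1 p.2.2.2) =
      true := by
  decide +kernel

end PTH_

open scoped Classical in
theorem p_PTH : T_PTH := by
  intro T hT s1 s2 s3
  have hk := PTH_.key (decide (T.Adj 0 1)) (decide (T.Adj 0 2)) (decide (T.Adj 0 3))
    (decide (T.Adj 1 2)) (decide (T.Adj 1 3)) (decide (T.Adj 2 3)) s1 s2 s3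
  have hA : ∀ i j, PTH_.adj (decide (T.Adj 0 1)) (decide (T.Adj 0 2)) (decide (T.Adj 0 3))
    (decide (T.Adj 1 2)) (decide (T.Adj 1 3)) (decide (T.Adj 2 3)) i j = true → T.Adj i j := by
    intro i j
    have h := hT.2
    fin_cases i <;> fin_cases j <;> simp [PTH_.adj] <;>
      first
        | (intro hh; exact (h _ _ (by decide)).2 hh)
  obtain ⟨p, hp, hpp⟩ := List.any_eq_true.1 hk
  obtain ⟨n1, n2, n3, n4, n5, n6⟩ := PTH_.perms_ne p hp
  have hst : ∀ s i j, PTH_.stp (PTH_.adj (decide (T.Adj 0 1)) (decide (T.Adj 0 2))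
      (decide (T.Adj 0 3)) (decide (T.Adj 1 2)) (decide (T.Adj 1 3)) (decide (T.Adj 2 3))) s i j
        = true → (if s then T.Adj i j else T.Adj j i) := by
    intro s i j h
    unfold PTH_.stp at h
    cases s
    · exact hA _ _ (by simpa using h)
    · exact hA _ _ (by simpa using h)
  unfold PTH_.pth at hpp
  rw [Bool.and_eq_true, Bool.and_eq_true] at hpp
  refine ⟨![p.1, p.2.1, p.2.2.1, p.2.2.2], ?_, ?_, ?_, ?_⟩
  · intro i j hij
    fin_cases i <;> fin_cases j <;> simp_all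
  · exact hst s1 p.1 p.2.1 hpp.1.1
  · exact hst s2 p.2.1 p.2.2.1 hpp.1.2
  · exact hst s3 p.2.2.1 p.2.2.2 hpp.2

end Pool.Agent.MGF
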