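import Pool.Agent.MGF.Targets

/-!
# MGF, PXY and PYY
-/

set_option autoImplicit false

open Finset

namespace Pool.Agent.MGF

open Pool.Agent.MGT (E dg Sym)

namespace PXY_

variable {V : Type} [DecidableEq V]

theorem dg_erase (e : V → V → ℕ) (A : Finset V) (v w : V) (hw : w ∈ A) :
    dg e (A.erase w) v + e v w = dg e A v := sum_erase_add A _ hw

end PXY_

open PXY_

/-- PXY. -/
theorem p_PXY (h_PL : T_PL) : T_PXY := by
  intro V _ e X Y p q x y hc hx hy hxy hX hY
  have hd := disjoint_left.1 hc.disj
  have hC := card_erase_of_mem hx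
  have hD := card_erase_of_mem hy
  have cX := hc.cX
  have cY := hc.cY
  have hne : x ≠ y := fun h => hd hx (h ▸ hy)
  obtain ⟨c, hcC, d, hdD, hG⟩ := h_PL V e (X.erase x) (Y.erase y) x y (p + q + 1) hc.sym hne
    (notMem_erase x X) (fun h => hd hx (mem_of_mem_erase h))
    (fun h => hd (mem_of_mem_erase h) hy) (notMem_erase y Y)
    (disjoint_of_subset_left (erase_subset _ _) (disjoint_of_subset_right (erase_subset _ _)
      hc.disj)) (by omega) hxy (by
      intro v hv
      have hvXY : v ∈ X ∪ Y := by
        rcases hv with rfl | rfl | hv | hv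
        · exact mem_union_left _ hx
        · exact mem_union_right _ hy
        · exact mem_union_left _ (mem_of_mem_erase hv)
        · exact mem_union_right _ (mem_of_mem_erase hv)
      have h1 := hc.dt v hvXY
      have h2 := dg_erase e X v x hx
      have h3 := dg_erase e Y v y hy
      omega) (by
      have h2 := dg_erase e X x x hx
      have h3 := dg_erase e X y x hx
      omega) (by
      have h2 := dg_erase e Y x y hy
      have h3 := dg_erase e Y y y hy
      omega)
  exact ⟨c, mem_of_mem_erase hcC, d, mem_of_mem_erase hdD, ne_of_mem_erase hcC,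
    ne_of_mem_erase hdD, hG⟩

/-- PYY. -/
theorem p_PYY (h_PL : T_PL) : T_PYY := by
  intro V _ e X Y p q y1 y2 hc h1 h2 hne h12 hY hX
  have hd := disjoint_right.1 hc.disj
  have h2' : y2 ∈ Y.erase y1 := mem_erase.2 ⟨hne.symm, h2⟩
  have hC1 := card_erase_of_mem h1
  have hC2 := card_erase_of_mem h2'
  have cX := hc.cX
  have cY := hc.cY
  have hsub : (Y.erase y1).erase y2 ⊆ Y := (erase_subset _ _).trans (erase_subset _ _)
  have hdeg : ∀ v, dg e ((Y.erase y1).erase y2) v + (e v y1 + e v y2) = dg e Y v := by
    intro v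
    have h3 := dg_erase e Y v y1 h1
    have h4 := dg_erase e (Y.erase y1) v y2 h2'
    omega
  obtain ⟨c, hcC, d, hdD, hG⟩ := h_PL V e ((Y.erase y1).erase y2) X y1 y2 (p + q + 1) hc.sym hne
    (fun h => notMem_erase y1 Y (mem_of_mem_erase h)) (hd h1) (notMem_erase y2 _) (hd h2)
    (disjoint_of_subset_left hsub hc.disj.symm) (by omega) h12 (by
      intro v hv
      have hvXY : v ∈ X ∪ Y := by
        rcases hv with rfl | rfl | hv | hv
        · exact mem_union_right _ h1
        · exact mem_union_right _ h2
        · exact mem_union_right _ (hsub hv)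
        · exact mem_union_left _ hv
      have h3 := hc.dt v hvXY
      have h4 := hdeg v
      omega) (by
      have h3 := hdeg y1
      have h4 := hdeg y2
      omega) (by omega)
  exact ⟨c, hsub hcC, d, hdD, ne_of_mem_erase (mem_of_mem_erase hcC), ne_of_mem_erase hcC, hG⟩

end Pool.Agent.MGF
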