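import Pool.Agent.MGF.Targets
import Pool.Agent.MGT.P_POS

set_option autoImplicit false

/-!
# MGF SAT: after adding edges there is a cut of value at least zero
-/

open Finset

namespace Pool.Agent.MGF

open Pool.Agent.MGT (E dg Sym)
open Pool.Agent.MGT.POS_ (addE defi ind sym_addE sum_ind_ne sum_ind_le dg_addE defi_addE)

theorem p_SAT : T_SAT := by
  intro V _ e S k he hk hS hd
  suffices hmain : ∀ n : ℕ, ∀ e : V → V → ℕ, defi e S k = n → Sym e →
      (∀ v ∈ S, dg e S v + 1 ≤ 2 * k) →
      ∃ e' : V → V → ℕ, Sym e' ∧ (∀ a b, e a b ≤ e' a b) ∧ (∀ v ∈ S, dg e' S v + 1 ≤ 2 * k) ∧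
        ∃ X Y : Finset V, X.Nonempty ∧ Y.Nonempty ∧ Disjoint X Y ∧ X ∪ Y = S ∧
          X.card * Y.card ≤ 2 * E e' X Y from hmain _ e rfl he hd
  clear hd he e
  intro n
  induction n using Nat.strong_induction_on with
  | _ n ih =>
    intro e hn he hd
    set D : Finset V := S.filter (fun v => dg e S v + 2 ≤ 2 * k) with hD
    by_cases hDc : 1 < D.card
    · obtain ⟨v, hv, v', hv', hne⟩ := Finset.one_lt_card.mp hDc
      rw [hD, Finset.mem_filter] at hv hv'
      have hsym := sym_addE he hne
      have hlt : defi (addE e v v') S k < n := by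
        rw [← hn]
        exact defi_addE hne hv.1 hv'.1 hv.2
      have hdeg : ∀ a ∈ S, dg (addE e v v') S a + 1 ≤ 2 * k := by
        intro a ha
        rw [dg_addE]
        by_cases h1 : a = v
        · have := sum_ind_le S hne a
          rw [h1] at this ⊢
          have := hv.2
          omega
        · by_cases h2 : a = v'
          · have := sum_ind_le S hne a
            rw [h2] at this ⊢
            have := hv'.2
            omega
          · rw [sum_ind_ne S h1 h2]
            exact hd a ha
      obtain ⟨e', h1, h2, h3, h4⟩ := ih _ hlt (addE e v v') rfl hsym hdeg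
      exact ⟨e', h1, fun a b => (Nat.le_add_right _ _).trans (h2 a b), h3, h4⟩
    · -- a full vertex
      have hfull : ∃ x ∈ S, x ∉ D := by
        by_contra hcon
        push Not at hcon
        have : S.card ≤ D.card := Finset.card_le_card hcon
        omega
      obtain ⟨x, hxS, hxD⟩ := hfull
      have hx : dg e S x + 1 = 2 * k := by
        have h1 := hd x hxS
        rw [hD, Finset.mem_filter] at hxD
        by_contra hcon
        exact hxD ⟨hxS, by omega⟩
      -- neighbours
      set NB : Finset V := S.filter (fun w => 1 ≤ e x w) with hNB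
      have hNBc : NB.card ≤ dg e S x := by
        unfold dg
        calc NB.card = ∑ w ∈ NB, 1 := by simp
          _ ≤ ∑ w ∈ NB, e x w := Finset.sum_le_sum (fun w hw => (Finset.mem_filter.mp hw).2)
          _ ≤ ∑ w ∈ S, e x w :=
              Finset.sum_le_sum_of_subset (Finset.filter_subset _ _)
      have hex : ∃ x' ∈ S, x' ≠ x ∧ e x x' = 0 ∧ x' ∉ D := by
        by_contra hcon
        push Not at hcon
        have hsub : S ⊆ NB ∪ (insert x D) := by
          intro w hw
          by_cases h1 : 1 ≤ e x w
          · exact Finset.mem_union_left _ (Finset.mem_filter.mpr ⟨hw, h1⟩)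
          · apply Finset.mem_union_right
            rw [Finset.mem_insert]
            by_cases h2 : w = x
            · exact Or.inl h2
            · exact Or.inr (hcon w hw h2 (by omega))
        have h3 : S.card ≤ NB.card + (D.card + 1) :=
          (Finset.card_le_card hsub).trans ((Finset.card_union_le _ _).trans
            (Nat.add_le_add_left (Finset.card_insert_le _ _) _))
        omega
      obtain ⟨x', hx'S, hx'x, hexx, hx'D⟩ := hex
      have hx' : dg e S x' + 1 = 2 * k := by
        have h1 := hd x' hx'S
        rw [hD, Finset.mem_filter] at hx'D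
        by_contra hcon
        exact hx'D ⟨hx'S, by omega⟩
      -- the cut
      set X : Finset V := {x, x'} with hX
      have hXS : X ⊆ S := by
        intro w hw
        rw [hX, Finset.mem_insert, Finset.mem_singleton] at hw
        rcases hw with h | h <;> rw [h] <;> assumption
      have hXc : X.card = 2 := Finset.card_pair hx'x.symm
      obtain ⟨-, -, -, hEd, hdgU, -, -, -, -⟩ := Pool.Agent.MGT.p_EB V e he
      have hsplit : ∀ v, dg e S v = dg e X v + dg e (S \ X) v := by
        intro v
        rw [← hdgU X (S \ X) v Finset.disjoint_sdiff, Finset.union_sdiff_of_subset hXS]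
      have hXx : dg e X x = 0 := by
        unfold dg
        rw [hX, Finset.sum_pair hx'x.symm, he.2 x, hexx]
      have hXx' : dg e X x' = 0 := by
        unfold dg
        rw [hX, Finset.sum_pair hx'x.symm, he.2 x', he.1 x' x, hexx]
      have hE : E e X (S \ X) = dg e (S \ X) x + dg e (S \ X) x' := by
        rw [hEd X (S \ X), hX, Finset.sum_pair hx'x.symm]
      have h1 := hsplit x
      have h2 := hsplit x'
      have hsd : (S \ X).card = 4 * k - 2 := by
        rw [Finset.card_sdiff_of_subset hXS, hXc, hS]
      refine ⟨e, he, fun _ _ => le_rfl, hd, X, S \ X, ⟨x, by rw [hX]; simp⟩, ?_,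
        Finset.disjoint_sdiff, Finset.union_sdiff_of_subset hXS, ?_⟩
      · rw [← Finset.card_pos, hsd]
        omega
      · rw [hE, hXc, hsd]
        omega

end Pool.Agent.MGF
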