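import Pool.Agent.MGF.Targets

set_option autoImplicit false

open Finset

namespace Pool.Agent.MGF

open Pool.Agent.MGT (E dg Sym)

/-- STAR. -/
theorem p_STAR : T_STAR := by
  intro V _ e X Y k hc hdeg hopt
  obtain ⟨hsym, hadd2, hadd1, hsum, hdgadd, -, -, -, -⟩ := Pool.Agent.MGT.p_EB V e hopt.sym
  have hd := hopt.disj
  intro P hP hPne
  set Q := X \ P with hQ
  have hPQ : Disjoint P Q := disjoint_sdiff
  have hX : X = P ∪ Q := (Finset.union_sdiff_of_subset hP).symm
  have hPY : Disjoint P Y := Finset.disjoint_of_subset_left hP hd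
  have hQY : Disjoint Q Y := Finset.disjoint_of_subset_left sdiff_subset hd
  have hEX : E e X Y = E e P Y + E e Q Y := by
    conv_lhs => rw [hX]
    exact hadd1 P Q Y hPQ
  have hcX : X.card = P.card + Q.card := by
    conv_lhs => rw [hX]
    exact card_union_of_disjoint hPQ
  have hcS : P.card + Q.card + Y.card = 4 * k := by
    rw [← hc, card_union_of_disjoint hd, hcX]
  have hdegsum : E e P P + E e P Q + E e P Y + P.card ≤ P.card * (2 * k) := by
    have h1 : E e P P + E e P Q + E e P Y = ∑ v ∈ P, dg e (X ∪ Y) v := by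
      rw [hsum P P, hsum P Q, hsum P Y, ← Finset.sum_add_distrib, ← Finset.sum_add_distrib]
      apply Finset.sum_congr rfl
      intro v _
      rw [hdgadd X Y v hd]
      congr 1
      conv_rhs => rw [hX]
      exact (hdgadd P Q v hPQ).symm
    rw [h1]
    have h2 : ∑ v ∈ P, (dg e (X ∪ Y) v + 1) ≤ ∑ _v ∈ P, 2 * k :=
      Finset.sum_le_sum (fun v hv => hdeg v (mem_union_left Y (hP hv)))
    rw [Finset.sum_add_distrib, Finset.sum_const, Finset.sum_const, smul_eq_mul, smul_eq_mul,
      mul_one] at h2
    exact h2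
  have hk2 : 2 * (P.card * (2 * k)) = P.card * (P.card + Q.card + Y.card) := by
    rw [hcS]
    ring
  have hm : 2 * E e P Q + P.card * Y.card ≤ 2 * E e P Y + P.card * Q.card := by
    rcases Q.eq_empty_or_nonempty with hQ0 | hQne
    · have h1 := hopt.nn
      rw [hEX, hcX, hQ0] at h1
      have h2 : E e ∅ Y = 0 := by simp [Pool.Agent.MGT.E]
      have h3 : E e P ∅ = 0 := by simp [Pool.Agent.MGT.E]
      rw [h2] at h1
      rw [hQ0, h3]
      simp only [card_empty, add_zero, mul_zero, zero_add] at h1 ⊢
      exact h1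
    · have h1 := hopt.mx Q (P ∪ Y) hQne (hPne.mono subset_union_left)
        (by
          rw [disjoint_union_right]
          exact ⟨hPQ.symm, hQY⟩)
        (by
          rw [← union_assoc, union_comm Q P, ← hX])
      rw [hadd2 Q P Y hPY, card_union_of_disjoint hPY, hEX, hcX, hsym Q P] at h1
      nlinarith [h1]
  rw [hcX]
  nlinarith [hm, hdegsum, hk2]

end Pool.Agent.MGF
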