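import Pool.Agent.MGF.Targets

set_option autoImplicit false

/-!
# MGF: the target T_T13
-/

open Finset

namespace Pool.Agent.MGF

open Pool.Agent.MGT (E dg Sym)

namespace T13_

/-- The last step of all four cases. -/
lemma fin_crs (hCRS : T_CRS) {V : Type} [DecidableEq V] (e : V → V → ℕ) (X Y : Finset V)
    (p q : ℕ) (hdisj : Disjoint X Y) (hX : ∀ v ∈ X, dg e X v + 1 ≤ 2 * p)
    (hY : ∀ v ∈ Y, dg e Y v ≤ 2 * q) (a b c x : V) (ha : a ∈ Y) (hb : b ∈ Y) (hc : c ∈ Y)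
    (hx : x ∈ X) (hg : Gd e {a, b, c, x})
    (hU : ∀ v ∈ Y, v ≠ a → v ≠ b → v ≠ c → dg e Y v = 2 * q →
      1 ≤ e v a ∨ 1 ≤ e v b ∨ 1 ≤ e v c) : Cross e X Y p q 1 := by
  have hnot : ∀ v, v ∈ Y → v ∉ X := fun v hv hv' =>
    (Finset.disjoint_left.mp hdisj) hv' hv
  have hint : ({a, b, c, x} : Finset V) ∩ X = {x} := by
    ext v
    rw [Finset.mem_inter, Finset.mem_insert, Finset.mem_insert, Finset.mem_insert,
      Finset.mem_singleton]
    constructor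
    · rintro ⟨h1, h2⟩
      rcases h1 with rfl | rfl | rfl | rfl
      · exact absurd h2 (hnot _ ha)
      · exact absurd h2 (hnot _ hb)
      · exact absurd h2 (hnot _ hc)
      · rfl
    · rintro rfl
      exact ⟨Or.inr (Or.inr (Or.inr rfl)), hx⟩
  refine hCRS V e X Y {a, b, c, x} p q 1 hg ?_ ?_ ?_ hY ?_ ?_
  · intro v hv
    rw [Finset.mem_insert, Finset.mem_insert, Finset.mem_insert, Finset.mem_singleton] at hv
    rcases hv with rfl | rfl | rfl | rfl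
    · exact Finset.mem_union_right _ ha
    · exact Finset.mem_union_right _ hb
    · exact Finset.mem_union_right _ hc
    · exact Finset.mem_union_left _ hx
  · rw [hint, Finset.card_singleton]
  · intro v hv
    have := hX v hv
    omega
  · intro v hv _ h
    have := hX v hv
    omega
  · intro v hv hvQ h
    rw [Finset.mem_insert, Finset.mem_insert, Finset.mem_insert, Finset.mem_singleton] at hvQ
    have h1 : v ≠ a := fun h => hvQ (Or.inl h)
    have h2 : v ≠ b := fun h => hvQ (Or.inr (Or.inl h))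
    have h3 : v ≠ c := fun h => hvQ (Or.inr (Or.inr (Or.inl h)))
    rcases hU v hv h1 h2 h3 h with h4 | h4 | h4
    · exact ⟨a, by simp, ha, h4⟩
    · exact ⟨b, by simp, hb, h4⟩
    · exact ⟨c, by simp, hc, h4⟩

end T13_

open T13_ in
theorem p_T13 (hI4 : T_I4) (hA : T_A) (hPYY : T_PYY) (hD : T_D) (hEE : T_EE) (hCRS : T_CRS) :
    T_T13 := by
  intro V _ e X Y p q ho hc hX hY
  have hs : Sym e := hc.sym
  have hp : 1 ≤ p := by
    obtain ⟨v, hv⟩ := ho.neX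
    have := hX v hv
    omega
  by_cases h3 : ∃ u1 ∈ Y, ∃ u2 ∈ Y, ∃ u3 ∈ Y, u1 ≠ u2 ∧ u1 ≠ u3 ∧ u2 ≠ u3 ∧
      dg e Y u1 = 2 * q ∧ dg e Y u2 = 2 * q ∧ dg e Y u3 = 2 * q ∧
      e u1 u2 = 0 ∧ e u1 u3 = 0 ∧ e u2 u3 = 0
  · obtain ⟨u1, m1, u2, m2, u3, m3, n12, n13, n23, d1, d2, d3, e12, e13, e23⟩ := h3
    obtain ⟨x, hx, hg⟩ := hA V e X Y p q u1 u2 u3 hc hp m1 m2 m3 n12 n13 n23 d1 d2 d3 e12 e13 e23
    refine fin_crs hCRS e X Y p q hc.disj hX hY u1 u2 u3 x m1 m2 m3 hx hg ?_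
    intro v hv hv1 hv2 hv3 hd
    by_contra hcon
    have hv1' : e v u1 = 0 := by
      by_contra h
      exact hcon (Or.inl (by omega))
    have hv2' : e v u2 = 0 := by
      by_contra h
      exact hcon (Or.inr (Or.inl (by omega)))
    have hv3' : e v u3 = 0 := by
      by_contra h
      exact hcon (Or.inr (Or.inr (by omega)))
    have h4 := hI4 V e X Y p q v u1 u2 u3 ho hc hv m1 m2 m3 hv1 hv2 hv3 n12 n13 n23 hd d1 d2 d3
    omega
  by_cases h2 : ∃ u1 ∈ Y, ∃ u2 ∈ Y, u1 ≠ u2 ∧ dg e Y u1 = 2 * q ∧ dg e Y u2 = 2 * q ∧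
      e u1 u2 = 0
  · obtain ⟨u1, m1, u2, m2, n12, d1, d2, e12⟩ := h2
    have b1 := hc.dt u1 (Finset.mem_union_right _ m1)
    have b2 := hc.dt u2 (Finset.mem_union_right _ m2)
    obtain ⟨y3, hy3, x, hx, hy31, hy32, hg⟩ :=
      hPYY V e X Y p q u1 u2 hc m1 m2 n12 e12 (by omega) (by omega)
    refine fin_crs hCRS e X Y p q hc.disj hX hY u1 u2 y3 x m1 m2 hy3 hx hg ?_
    intro v hv hv1 hv2 hv3 hd
    by_contra hcon
    have hv1' : e v u1 = 0 := by
      by_contra h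
      exact hcon (Or.inl (by omega))
    have hv2' : e v u2 = 0 := by
      by_contra h
      exact hcon (Or.inr (Or.inl (by omega)))
    refine h3 ⟨u1, m1, u2, m2, v, hv, n12, hv1.symm, hv2.symm, d1, d2, hd, e12, ?_, ?_⟩
    · rw [hs.1 u1 v]; exact hv1'
    · rw [hs.1 u2 v]; exact hv2'
  by_cases h1 : ∃ u ∈ Y, dg e Y u = 2 * q
  · obtain ⟨u, m1, d1⟩ := h1
    obtain ⟨y2, hy2, y3, hy3, x, hx, -, -, -, hg⟩ := hD V e X Y p q u hc hp hY m1 d1
    refine fin_crs hCRS e X Y p q hc.disj hX hY u y2 y3 x m1 hy2 hy3 hx hg ?_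
    intro v hv hv1 hv2 hv3 hd
    by_contra hcon
    have hv1' : e v u = 0 := by
      by_contra h
      exact hcon (Or.inl (by omega))
    exact h2 ⟨v, hv, u, m1, hv1, hd, d1, hv1'⟩
  · have hY' : ∀ v ∈ Y, dg e Y v + 1 ≤ 2 * q := by
      intro v hv
      have h5 := hY v hv
      have h6 : dg e Y v ≠ 2 * q := fun h => h1 ⟨v, hv, h⟩
      omega
    obtain ⟨y1, hy1, y2, hy2, y3, hy3, x, hx, -, -, -, hg⟩ := hEE V e X Y p q hc hp hY'
    refine fin_crs hCRS e X Y p q hc.disj hX hY y1 y2 y3 x hy1 hy2 hy3 hx hg ?_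
    intro v hv _ _ _ hd
    exact absurd ⟨v, hv, hd⟩ h1

end Pool.Agent.MGF
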