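import Pool.Agent.MGF.Targets

set_option autoImplicit false

/-!
# MGF, T22: type (2,2)
-/

open Finset

namespace Pool.Agent.MGF

open Pool.Agent.MGT (E dg Sym)

namespace T22_

variable {V : Type} [DecidableEq V]

/-- From a good crossing set to `Cross`. -/
theorem cross_of (h_CRS : T_CRS) {e : V → V → ℕ} {X Y : Finset V} {p q : ℕ} {x1 y1 x2 y2 : V}
    (hdisj : Disjoint X Y) (hx1 : x1 ∈ X) (hy1 : y1 ∈ Y) (hx2 : x2 ∈ X) (hy2 : y2 ∈ Y)
    (hx : x2 ≠ x1) (hG : Gd e {x1, y1, x2, y2})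
    (hX : ∀ v ∈ X, dg e X v ≤ 2 * p) (hY : ∀ v ∈ Y, dg e Y v ≤ 2 * q)
    (hX' : ∀ v ∈ X, v ≠ x1 → dg e X v = 2 * p → 1 ≤ e v x1)
    (hY' : ∀ v ∈ Y, v ≠ y1 → dg e Y v = 2 * q → 1 ≤ e v y1) : Cross e X Y p q 2 := by
  have hXY : ∀ v ∈ X, v ∉ Y := fun v h1 h2 => Finset.disjoint_left.mp hdisj h1 h2
  refine h_CRS V e X Y {x1, y1, x2, y2} p q 2 hG ?_ ?_ hX hY ?_ ?_
  · intro v hv
    simp only [Finset.mem_insert, Finset.mem_singleton] at hv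
    rw [Finset.mem_union]
    rcases hv with rfl | rfl | rfl | rfl
    · exact Or.inl hx1
    · exact Or.inr hy1
    · exact Or.inl hx2
    · exact Or.inr hy2
  · have h1 : ({x1, y1, x2, y2} : Finset V) ∩ X = {x1, x2} := by
      ext v
      simp only [Finset.mem_inter, Finset.mem_insert, Finset.mem_singleton]
      constructor
      · rintro ⟨rfl | rfl | rfl | rfl, hv⟩
        · exact Or.inl rfl
        · exact absurd hy1 (hXY _ hv)
        · exact Or.inr rfl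
        · exact absurd hy2 (hXY _ hv)
      · rintro (rfl | rfl)
        · exact ⟨Or.inl rfl, hx1⟩
        · exact ⟨Or.inr (Or.inr (Or.inl rfl)), hx2⟩
    rw [h1]
    exact Finset.card_pair hx.symm
  · intro v hv hvQ hd
    refine ⟨x1, by simp, hx1, hX' v hv ?_ hd⟩
    rintro rfl
    exact hvQ (by simp)
  · intro v hv hvQ hd
    refine ⟨y1, by simp, hy1, hY' v hv ?_ hd⟩
    rintro rfl
    exact hvQ (by simp)

/-- Only the first side has full vertices. -/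
theorem case_B (h_CRS : T_CRS) (h_BB : T_BB) {e : V → V → ℕ} {X Y : Finset V} {p q : ℕ} {x1 : V}
    (hC : Cfg e X Y p q 2) (hp : 1 ≤ p) (hx1 : x1 ∈ X) (hd1 : dg e X x1 = 2 * p)
    (hX : ∀ v ∈ X, dg e X v ≤ 2 * p) (hY : ∀ v ∈ Y, dg e Y v + 1 ≤ 2 * q)
    (hU : ∀ u1 ∈ X, ∀ u2 ∈ X, u1 ≠ u2 → dg e X u1 = 2 * p → dg e X u2 = 2 * p → 1 ≤ e u1 u2) :
    Cross e X Y p q 2 := by
  obtain ⟨y1, hy1, x2, hx2, y2, hy2, hx, hy, hG⟩ := h_BB V e X Y p q x1 hC hp hx1 hd1 hY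
  refine cross_of h_CRS hC.disj hx1 hy1 hx2 hy2 hx hG hX
    (fun v hv => le_trans (Nat.le_succ _) (hY v hv)) (fun v hv hne hd => hU v hv x1 hx1 hne hd hd1)
    (fun v hv _ hd => ?_)
  have := hY v hv
  omega

end T22_

/-- T22. Type (2,2). -/
theorem p_T22 (h_P0 : T_P0) (h_I2 : T_I2) (h_OSW : T_OSW) (h_CSW : T_CSW) (h_SW : T_SW)
    (h_AA : T_AA) (h_BB : T_BB) (h_CC : T_CC) (h_CRS : T_CRS) : T_T22 := by
  intro V _ e X Y p q hO hC hpq hX hY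
  have h4 : 4 ∣ X.card + Y.card := by
    rw [hC.cX, hC.cY]
    exact ⟨p + q + 1, by omega⟩
  have hO' : Opt e Y X := h_OSW V e X Y h4 hO
  have hC' : Cfg e Y X q p 2 := (h_CSW V e X Y p q).1 hC
  have hU : 1 ≤ p → ∀ u1 ∈ X, ∀ u2 ∈ X, u1 ≠ u2 → dg e X u1 = 2 * p → dg e X u2 = 2 * p →
      1 ≤ e u1 u2 := fun hp u1 h1 u2 h2 h3 h5 h6 => h_I2 V e X Y p q u1 u2 hO hC hp h1 h2 h3 h5 h6
  have hU' : 1 ≤ q → ∀ u1 ∈ Y, ∀ u2 ∈ Y, u1 ≠ u2 → dg e Y u1 = 2 * q → dg e Y u2 = 2 * q →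
      1 ≤ e u1 u2 := fun hq u1 h1 u2 h2 h3 h5 h6 =>
    h_I2 V e Y X q p u1 u2 hO' hC' hq h1 h2 h3 h5 h6
  rcases Nat.eq_zero_or_pos p with hp | hp
  · subst hp
    have hq : 1 ≤ q := by omega
    exact h_P0 V e X Y q hC hq (fun v hv => Nat.le_zero.mp (hX v hv)) hY (hU' hq)
  rcases Nat.eq_zero_or_pos q with hq | hq
  · subst hq
    exact (h_CSW V e X Y p 0).2 hC
      (h_P0 V e Y X p hC' hp (fun v hv => Nat.le_zero.mp (hY v hv)) hX (hU hp))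
  by_cases hfX : ∃ x1 ∈ X, dg e X x1 = 2 * p
  · obtain ⟨x1, hx1, hd1⟩ := hfX
    by_cases hfY : ∃ y1 ∈ Y, dg e Y y1 = 2 * q
    · obtain ⟨y1, hy1, hd2⟩ := hfY
      have h5 := h_SW V e X Y x1 y1 hO hx1 hy1
      have h6 := hC.dt x1 (Finset.mem_union_left _ hx1)
      have h7 := hC.dt y1 (Finset.mem_union_right _ hy1)
      have h8 : e x1 y1 ≤ 1 := by omega
      obtain ⟨x2, hx2, y2, hy2, hx, hy, hG⟩ := h_AA V e X Y p q x1 y1 hC hx1 hy1 hd1 hd2 h8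
      exact T22_.cross_of h_CRS hC.disj hx1 hy1 hx2 hy2 hx hG hX hY
        (fun v hv hne hd => hU hp v hv x1 hx1 hne hd hd1)
        (fun v hv hne hd => hU' hq v hv y1 hy1 hne hd hd2)
    · have hY' : ∀ v ∈ Y, dg e Y v + 1 ≤ 2 * q := by
        intro v hv
        have h1 := hY v hv
        have h2 : dg e Y v ≠ 2 * q := fun h => hfY ⟨v, hv, h⟩
        omega
      exact T22_.case_B h_CRS h_BB hC hp hx1 hd1 hX hY' (hU hp)
  · have hX' : ∀ v ∈ X, dg e X v + 1 ≤ 2 * p := by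
      intro v hv
      have h1 := hX v hv
      have h2 : dg e X v ≠ 2 * p := fun h => hfX ⟨v, hv, h⟩
      omega
    by_cases hfY : ∃ y1 ∈ Y, dg e Y y1 = 2 * q
    · obtain ⟨y1, hy1, hd2⟩ := hfY
      exact (h_CSW V e X Y p q).2 hC
        (T22_.case_B h_CRS h_BB hC' hq hy1 hd2 hY hX' (hU' hq))
    · have hY' : ∀ v ∈ Y, dg e Y v + 1 ≤ 2 * q := by
        intro v hv
        have h1 := hY v hv
        have h2 : dg e Y v ≠ 2 * q := fun h => hfY ⟨v, hv, h⟩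
        omega
      obtain ⟨x1, hx1, y1, hy1, x2, hx2, y2, hy2, hx, hy, hG⟩ := h_CC V e X Y p q hC hX' hY'
      refine T22_.cross_of h_CRS hC.disj hx1 hy1 hx2 hy2 hx hG hX hY
        (fun v hv _ hd => ?_) (fun v hv _ hd => ?_)
      · have := hX' v hv
        omega
      · have := hY' v hv
        omega

end Pool.Agent.MGF
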