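import Pool.Agent.MGF.P_A
import Pool.Agent.MGF.P_AA
import Pool.Agent.MGF.P_BB
import Pool.Agent.MGF.P_CC
import Pool.Agent.MGF.P_CRS
import Pool.Agent.MGF.P_CST
import Pool.Agent.MGF.P_D
import Pool.Agent.MGF.P_DEG
import Pool.Agent.MGF.P_EE
import Pool.Agent.MGF.P_EMB
import Pool.Agent.MGF.P_FAM
import Pool.Agent.MGF.P_FU
import Pool.Agent.MGF.P_HA1
import Pool.Agent.MGF.P_HP
import Pool.Agent.MGF.P_I2
import Pool.Agent.MGF.P_I4
import Pool.Agent.MGF.P_K1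
import Pool.Agent.MGF.P_MAIN
import Pool.Agent.MGF.P_MG
import Pool.Agent.MGF.P_OPT
import Pool.Agent.MGF.P_P0
import Pool.Agent.MGF.P_PL
import Pool.Agent.MGF.P_PTH
import Pool.Agent.MGF.P_PXY
import Pool.Agent.MGF.P_SAT
import Pool.Agent.MGF.P_STAR
import Pool.Agent.MGF.P_T13
import Pool.Agent.MGF.P_T22
import Pool.Agent.MGF.Four

set_option autoImplicit false

/-!
# MGF: assembly
-/

open Finset

namespace Pool.Agent.MGF

/-- A multigraph on `4k` vertices with maximum degree at most `2k - 1` can be partitioned into `k`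
sets of four vertices inducing simple linear forests. -/
theorem mg4 : T_MG := by
  have h_FU : T_FU := p_FU
  have h_HP : T_HP := p_HP p_CST
  have h_PL : T_PL := p_PL h_HP
  have h_PXY : T_PXY := p_PXY h_PL
  have h_PYY : T_PYY := p_PYY h_PL
  have h_CSW : T_CSW := p_CSW h_FU
  have h_CRS : T_CRS := p_CRS
  have h_OSW : T_OSW := p_OSW
  have h_T13 : T_T13 := p_T13 p_I4 p_A h_PYY (p_D h_PYY) (p_EE h_PYY) h_CRS
  have h_AA : T_AA := p_AA h_PXY (p_HA1 h_HP) h_CSW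
  have h_T22 : T_T22 := p_T22 (p_P0 h_HP h_CRS) p_I2 h_OSW h_CSW p_SW h_AA (p_BB h_PXY)
    (p_CC h_PXY h_CSW) h_CRS
  have h_MAIN : T_MAIN := p_MAIN p_STAR h_OSW p_DEG h_T13 h_T22 (p_FIN h_FU) h_FU
  exact p_MG h_FU p_K1 p_SAT p_OPT h_MAIN

open scoped Classical in
/-- The digraph statement. -/
theorem four_main (k : ℕ) (V : Type) [Fintype V] (D : Digraph V) (hloop : ∀ v, ¬ D.Adj v v)
    (hV : Fintype.card V = 4 * k)
    (hdeg : ∀ v : V, 6 * k ≤ (univ.filter (fun w => D.Adj v w)).card +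
        (univ.filter (fun w => D.Adj w v)).card + 1) :
    ∃ P : Fin k → Finset V, (∀ i, (P i).card = 4) ∧ (∀ i j, i ≠ j → Disjoint (P i) (P j)) ∧
      ∀ i (T : Digraph (Fin 4)), Pool.Agent.MGT.Tour T → ∃ f : Fin 4 → V, Function.Injective f ∧
        (∀ a, f a ∈ P i) ∧ ∀ a b, T.Adj a b → D.Adj (f a) (f b) :=
  four mg4 (p_EMB p_PTH) (p_FAM p_FU) p_FU Pool.Agent.MGT.p_MIS Pool.Agent.MGT.p_MISD k V D hloop
    hV hdeg

end Pool.Agent.MGF
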