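import Pool.Agent.MGF.Targets

set_option autoImplicit false

/-!
# MGF: target A
-/

open Finset

namespace Pool.Agent.MGF

open Pool.Agent.MGT (E dg Sym)

theorem p_A : T_A := by
  intro V _ e X Y p q u1 u2 u3 hc hp h1 h2 h3 h12 h13 h23 d1 d2 d3 e12 e13 e23
  have hsym := hc.sym.1
  have hd : ∀ u ∈ Y, dg e Y u = 2 * q → dg e X u ≤ 2 * p + 1 := by
    intro u hu hq
    have := hc.dt u (mem_union_right X hu)
    omega
  have k1 := hd u1 h1 d1
  have k2 := hd u2 h2 d2
  have k3 := hd u3 h3 d3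
  have hx : ∃ x ∈ X, e u1 x + e u2 x + e u3 x ≤ 1 := by
    by_contra hcon
    push Not at hcon
    have hs : X.card * 2 ≤ ∑ x ∈ X, (e u1 x + e u2 x + e u3 x) := by
      rw [← smul_eq_mul]
      exact Finset.card_nsmul_le_sum X _ 2 fun x hx => hcon x hx
    rw [sum_add_distrib, sum_add_distrib] at hs
    have hs' : X.card * 2 ≤ dg e X u1 + dg e X u2 + dg e X u3 := hs
    have := hc.cX
    omega
  obtain ⟨x, hxX, hx⟩ := hx
  have hne : ∀ u ∈ Y, x ≠ u := by
    rintro u hu rfl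
    exact (Finset.disjoint_left.mp hc.disj hxX) hu
  have n1 := hne u1 h1
  have n2 := hne u2 h2
  have n3 := hne u3 h3
  refine ⟨x, hxX, ?_⟩
  have s1 : e x u1 = e u1 x := hsym x u1
  have s2 : e x u2 = e u2 x := hsym x u2
  have s3 : e x u3 = e u3 x := hsym x u3
  have s21 : e u2 u1 = e u1 u2 := hsym u2 u1
  have s31 : e u3 u1 = e u1 u3 := hsym u3 u1
  have s32 : e u3 u2 = e u2 u3 := hsym u3 u2
  by_cases c1 : e u1 x = 0
  · by_cases c2 : e u2 x = 0
    · refine ⟨x, u3, u1, u2, ?_, ⟨n3, n1, n2, h13.symm, h23.symm, h12⟩,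
        ⟨by omega, by omega, by omega⟩, by omega, by omega, by omega⟩
      ext y; simp; tauto
    · refine ⟨x, u2, u1, u3, ?_, ⟨n2, n1, n3, h12.symm, h23, h13⟩,
        ⟨by omega, by omega, by omega⟩, by omega, by omega, by omega⟩
      ext y; simp; tauto
  · refine ⟨x, u1, u2, u3, ?_, ⟨n1, n2, n3, h12, h13, h23⟩,
      ⟨by omega, by omega, by omega⟩, by omega, by omega, by omega⟩
    ext y; simp; tauto

end Pool.Agent.MGF
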