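import Pool.Agent.MGF.Targets

set_option autoImplicit false

/-!
# MGF: the case `k = 1`
-/

open Finset

namespace Pool.Agent.MGF

open Pool.Agent.MGT (E dg Sym)

namespace K1_

variable {V : Type} [DecidableEq V]

/-- The degree into a set of four vertices. -/
theorem dg4 (e : V → V → ℕ) {a b c d : V} (hab : a ≠ b) (hac : a ≠ c) (had : a ≠ d)
    (hbc : b ≠ c) (hbd : b ≠ d) (hcd : c ≠ d) (v : V) :
    dg e {a, b, c, d} v = e v a + (e v b + (e v c + e v d)) := by
  unfold dg
  rw [Finset.sum_insert (by simp [hab, hac, had]), Finset.sum_insert (by simp [hbc, hbd]),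
    Finset.sum_pair hcd]

/-- A good set with four vertices can be partitioned. -/
theorem fact_of (e : V → V → ℕ) {Q : Finset V} (h : Gd e Q) : Fact e Q := by
  have := Fact.add (e := e) ∅ Q Fact.nil h (Finset.disjoint_empty_right Q)
  simpa using this

end K1_

/-- K1. -/
theorem p_K1 : T_K1 := by
  intro V _ e S hs hc hd
  obtain ⟨hsym, hloop⟩ := hs
  obtain ⟨a, T, haT, rfl, hT⟩ := Finset.card_eq_succ.1 (show S.card = 3 + 1 by omega)
  obtain ⟨b, c, d, hbc, hbd, hcd, rfl⟩ := Finset.card_eq_three.1 hT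
  have hab : a ≠ b := by rintro rfl; simp at haT
  have hac : a ≠ c := by rintro rfl; simp at haT
  have had : a ≠ d := by rintro rfl; simp at haT
  have ha := hd a (by simp)
  have hb := hd b (by simp)
  have hc' := hd c (by simp)
  have hd' := hd d (by simp)
  rw [K1_.dg4 e hab hac had hbc hbd hcd] at ha hb hc' hd'
  rw [hloop a] at ha
  rw [hloop b, hsym b a] at hb
  rw [hloop c, hsym c a, hsym c b] at hc'
  rw [hloop d, hsym d a, hsym d b, hsym d c] at hd'
  apply K1_.fact_of
  by_cases h1 : e a c = 1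
  · refine ⟨a, c, b, d, ?_, ⟨hac, hab, had, hbc.symm, hcd, hbd⟩, ⟨by omega, by omega, by omega⟩,
      by omega, by rw [hsym c b]; omega, by omega⟩
    ext x; simp; tauto
  · by_cases h2 : e a d = 1
    · refine ⟨a, d, b, c, ?_, ⟨had, hab, hac, hbd.symm, hcd.symm, hbc⟩,
        ⟨by omega, by omega, by rw [hsym d c]; omega⟩, by omega, by rw [hsym d b]; omega,
        by omega⟩
      ext x; simp; tauto
    · by_cases h3 : e b d = 1
      · refine ⟨a, b, d, c, ?_, ⟨hab, had, hac, hbd, hbc, hcd.symm⟩,
          ⟨by omega, by omega, by omega⟩, by omega, by omega, by rw [hsym d c]; omega⟩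
        ext x; simp; tauto
      · exact ⟨a, b, c, d, rfl, ⟨hab, hac, had, hbc, hbd, hcd⟩,
          ⟨by omega, by omega, by omega⟩, by omega, by omega, by omega⟩

end Pool.Agent.MGF
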