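import Pool.Agent.MGF.Defs

set_option autoImplicit false

/-!
# MGF targets. Every target has its proof in the docstring.

`e(A,B)` is `E e A B`, `d_S(v)` is `dg e S v`; `E e P P` is twice the number of edges inside `P`.
`p_EB : T_EB` (namespace `Pool.Agent.MGT`, file `Pool.Agent.MGT.P_EB`, imported) has the basic facts
on `E` and `dg`. For a pair `a, b` write `t(v) = e v a + e v b`.
-/

open Finset

namespace Pool.Agent.MGF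

open Pool.Agent.MGT (E dg Sym)

/-! ## Basic facts -/

/-- FU. Basic facts on `Fact` and `Gd`. PROOF. (1) induction on the first `Fact`
(`(Q ∪ S) ∪ T = Q ∪ (S ∪ T)`). (2) `Lin` is antitone in `e`. (3) induction, (2). (4) `X ∪ Y` is
`Q ∪ ((X \ Q) ∪ (Y \ Q))`. (5) `S = ∅`. (6) the four vertices are different. -/
def T_FU : Prop := ∀ (V : Type) [DecidableEq V] (e e' : V → V → ℕ),
  (∀ S T, Fact e S → Fact e T → Disjoint S T → Fact e (S ∪ T)) ∧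
  (∀ Q, (∀ a b, e a b ≤ e' a b) → Gd e' Q → Gd e Q) ∧
  (∀ S, (∀ a b, e a b ≤ e' a b) → Fact e' S → Fact e S) ∧
  (∀ (X Y Q : Finset V), Disjoint X Y → Gd e Q → Q ⊆ X ∪ Y → Fact e (X \ Q) → Fact e (Y \ Q) →
    Fact e (X ∪ Y)) ∧
  MG4 V 0 ∧
  (∀ Q, Gd e Q → Q.card = 4)

/-- K1. PROOF. `S = {a,b,c,d}`, all degrees at most `1`, so the six multiplicities are at most `1`
and the edges form a matching. If `e a b = 1` then `e a c = e a d = e b c = e b d = 0` and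
`Lin e a b c d` holds (`e c d ≤ 1`). If `e a c = 1`: `Lin e a c b d`. If `e a d = 1`:
`Lin e a d b c`. If all three are `0`: `Lin e a b c d` unless `e b d = 1`, then `Lin e a b d c`
(`e b c = 0`, `e c d = 0`). -/
def T_K1 : Prop := ∀ (V : Type) [DecidableEq V], MG4 V 1

/-! ## Saturation and the optimal cut -/

/-- SAT. After adding edges there is a cut of value at least `0`. PROOF. Induction on the total
deficiency `∑ v ∈ S, (2k - 1 - d_S(v))`. If two different vertices `v, v' ∈ S` have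
`d_S ≤ 2k - 2`, let `e''` be `e` with one more edge `v v'` (as in `T_POS` of MGT) and apply the
induction hypothesis. Else at most one vertex has `d_S ≤ 2k - 2` and `e' = e` works: take a full
vertex `x` (`d_S(x) = 2k - 1`); it has at most `2k - 1` neighbours, so at least
`4k - 1 - (2k - 1) = 2k ≥ 2` other vertices are non-neighbours, one of them, `x'`, is full. The cut
`X = {x, x'}`: `E e X (S \ X) = 2(2k - 1)` as `e x x' = 0`, and `|X||S \ X| = 2(4k - 2)`. -/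
def T_SAT : Prop := ∀ (V : Type) [DecidableEq V] (e : V → V → ℕ) (S : Finset V) (k : ℕ),
  Sym e → 1 ≤ k → S.card = 4 * k → (∀ v ∈ S, dg e S v + 1 ≤ 2 * k) →
  ∃ e' : V → V → ℕ, Sym e' ∧ (∀ a b, e a b ≤ e' a b) ∧ (∀ v ∈ S, dg e' S v + 1 ≤ 2 * k) ∧
    ∃ X Y : Finset V, X.Nonempty ∧ Y.Nonempty ∧ Disjoint X Y ∧ X ∪ Y = S ∧
      X.card * Y.card ≤ 2 * E e' X Y

/-- OPT. Existence of the optimal cut. PROOF. Among the pairs `(X, Y)` with both parts non-empty,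
`Disjoint X Y`, `X ∪ Y = S` (a finite set: `Y = S \ X`, `X ∈ S.powerset`, non-empty by hypothesis)
take one with maximal `f(X) = (2 E e X (S \ X) - |X||S \ X|) * (n + 2) + tau n |X|`, an integer,
`n = |S|` (`Finset.exists_max_image`). As `0 ≤ tau n m ≤ n + 1` for `m ≤ n`, a cut of larger value
would have larger `f`, and a cut of at least the same value has `tau` at most that of `X`. -/
def T_OPT : Prop := ∀ (V : Type) [DecidableEq V] (e : V → V → ℕ) (S X₀ Y₀ : Finset V),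
  Sym e → X₀.Nonempty → Y₀.Nonempty → Disjoint X₀ Y₀ → X₀ ∪ Y₀ = S →
  X₀.card * Y₀.card ≤ 2 * E e X₀ Y₀ → ∃ X Y : Finset V, X ∪ Y = S ∧ Opt e X Y

/-- OSW. The optimal cut is symmetric. PROOF. `E e X Y = E e Y X`; apply `mx`, `tie` to
`(Y', X')`; for `4 ∣ n`, `m ≤ n`: `tau n (n - m) = tau n m` (four cases of `m % 4`; for `m % 4 = 1`
`n - m` has residue `3` and `n - (n - m) = m`), where `n = |X| + |Y| = |X'| + |Y'|`. -/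
def T_OSW : Prop := ∀ (V : Type) [DecidableEq V] (e : V → V → ℕ) (X Y : Finset V),
  4 ∣ X.card + Y.card → Opt e X Y → Opt e Y X

/-- STAR. PROOF. Let `P ⊆ X`, `P' = X \ P`, and `D = 2k - 1` where `|X ∪ Y| = 4k`. If `P' ≠ ∅` use
`mx` for `(P', Y ∪ P)`: `e(P', Y ∪ P) = e(X,Y) - e(P,Y) + e(P,P')` and
`|P'||Y ∪ P| = |X||Y| + |P|(|P'| - |Y|)`, so `2(e(P,P') - e(P,Y)) ≤ |P|(|P'| - |Y|)`. If
`P' = ∅`, i.e. `P = X`, this is `nn`. Degrees: `E e P P + e(P,P') + e(P,Y) ≤ |P|(2k - 1)` and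
`4k = |P| + |P'| + |Y|`. Twice this plus the inequality before:
`2 E(P,P) + 4 e(P,P') ≤ |P|(|P'| - |Y| + |P| + |P'| + |Y| - 2) = |P|(2|X| - |P| - 2)`. -/
def T_STAR : Prop := ∀ (V : Type) [DecidableEq V] (e : V → V → ℕ) (X Y : Finset V) (k : ℕ),
  (X ∪ Y).card = 4 * k → (∀ v ∈ X ∪ Y, dg e (X ∪ Y) v + 1 ≤ 2 * k) → Opt e X Y → Star e X

/-- DEG. PROOF. `Star` with `P = {x}`: `4 d_X(x) + 1 + 2 ≤ 2|X|` (`e x x = 0`). -/
def T_DEG : Prop := ∀ (V : Type) [DecidableEq V] (e : V → V → ℕ) (X : Finset V) (x : V),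
  Sym e → Star e X → x ∈ X → 4 * dg e X x + 3 ≤ 2 * X.card

/-- SW. Exchange of two vertices. PROOF. `mx` for `X' = (X \ {x}) ∪ {y}`, `Y' = (Y \ {y}) ∪ {x}`,
same sizes: `e(X',Y') = e(X,Y) + (d_X(x) - d_Y(x)) + (d_Y(y) - d_X(y)) + 2 e(x,y) ≤ e(X,Y)`. -/
def T_SW : Prop := ∀ (V : Type) [DecidableEq V] (e : V → V → ℕ) (X Y : Finset V) (x y : V),
  Opt e X Y → x ∈ X → y ∈ Y →
    dg e X x + dg e Y y + 2 * e x y ≤ dg e Y x + dg e X y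

/-- I2. Tie rule for `|X| = 4p + 2`. PROOF. Suppose `e u1 u2 = 0`. `P = {u1,u2}`, `X' = X \ P`
(`4p` vertices, non-empty), `Y' = Y ∪ P` (`4q + 4` vertices). `e(X',Y') = e(X,Y) - d_Y(u1) -
d_Y(u2) + 4p` and `d_Y(ui) ≤ 2q + 1`, `|X'||Y'| - |X||Y| = 8p - 8q - 4`. So
`2e(X',Y') - |X'||Y'| ≥ 2e(X,Y) - |X||Y|`, and `tie` gives `tau n (4p) = n + 1 ≤ tau n (4p + 2) = 0`,
contradiction. -/
def T_I2 : Prop := ∀ (V : Type) [DecidableEq V] (e : V → V → ℕ) (X Y : Finset V) (p q : ℕ)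
  (u1 u2 : V), Opt e X Y → Cfg e X Y p q 2 → 1 ≤ p → u1 ∈ X → u2 ∈ X → u1 ≠ u2 →
    dg e X u1 = 2 * p → dg e X u2 = 2 * p → 1 ≤ e u1 u2

/-- I4. Tie rule for `|X| = 4p + 1`. PROOF. Suppose the sum is `0`. `P = {u1,u2,u3,u4}`; `q ≥ 1` as
`|Y| = 4q + 3 ≥ 4`. `X' = X ∪ P` (`4p + 5`), `Y' = Y \ P` (`4q - 1`, non-empty).
`e(X',Y') = e(X,Y) - ∑ d_X(ui) + 8q`, `d_X(ui) ≤ 2p + 1`, `|X'||Y'| - |X||Y| = 16q - 16p - 8`. So
the value of the new cut is not smaller and `tie` gives `4p + 5 ≤ 4p + 1`, contradiction. -/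
def T_I4 : Prop := ∀ (V : Type) [DecidableEq V] (e : V → V → ℕ) (X Y : Finset V) (p q : ℕ)
  (u1 u2 u3 u4 : V), Opt e X Y → Cfg e X Y p q 1 → u1 ∈ Y → u2 ∈ Y → u3 ∈ Y → u4 ∈ Y →
    u1 ≠ u2 → u1 ≠ u3 → u1 ≠ u4 → u2 ≠ u3 → u2 ≠ u4 → u3 ≠ u4 →
    dg e Y u1 = 2 * q → dg e Y u2 = 2 * q → dg e Y u3 = 2 * q → dg e Y u4 = 2 * q →
    1 ≤ e u1 u2 + e u1 u3 + e u1 u4 + e u2 u3 + e u2 u4 + e u3 u4

/-! ## The pair lemma -/

/-- CST. When is `{a,b,c,d}` good, `e a b = 0`, `t(c) ≤ 1`. PROOF. We have to show `Gd` from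
`e c d < cost`. `t(c) = 0`: the edges are `d a`, `d b`, `c d`. If `t(d) = 0`: `Lin e c d a b`
(`e c d ≤ 1`). If `t(d) = 1`, say `e d a = 1`: `Lin e c d a b`; if `e d b = 1`: `Lin e c d b a`.
If `e d a = e d b = 1` and `e c d = 0`: `Lin e a d b c`. `t(c) = 1`, say `e c a = 1`, `e c b = 0`
(else exchange `a`, `b`). `t(d) = 0`: `Lin e a c d b`. `e d b = 1`, `e d a = 0`: `Lin e a c d b`.
`e d a = 1`, `e d b = 0`, `e c d = 0`: `Lin e c a d b`. `e d a = e d b = 1`, `e c d = 0`: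
`Lin e c a d b`. -/
def T_CST : Prop := ∀ (V : Type) [DecidableEq V] (e : V → V → ℕ) (a b c d : V), Sym e →
  a ≠ b → a ≠ c → a ≠ d → b ≠ c → b ≠ d → c ≠ d → e a b = 0 → e c a + e c b ≤ 1 →
  ¬ Gd e {a, b, c, d} →
    2 ≤ e c d + (e d a + e d b) ∧
    (e c a + e c b = 0 → e c d + (e d a + e d b) = 2 → e d a + e d b = 0 ∨ e d a + e d b = 2)

/-- HP. Half of the pair lemma. PROOF. CST for every `d ∈ D`, summed:
`2|D| ≤ ∑ d ∈ D, (e c d + e d a + e d b) = d_D(c) + d_D(a) + d_D(b)` (symmetry of `e`). In case of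
equality every summand is `2` (`Finset.sum_eq_sum_iff_of_le`), so if `t(c) = 0` every
`e d a + e d b` is `0` or `2`, and `d_D(a) + d_D(b)` is even (`Finset.even_sum`). -/
def T_HP : Prop := ∀ (V : Type) [DecidableEq V] (e : V → V → ℕ) (D : Finset V) (a b c : V),
  Sym e → a ≠ b → a ≠ c → b ≠ c → a ∉ D → b ∉ D → c ∉ D → e a b = 0 → e c a + e c b ≤ 1 →
  (∀ d ∈ D, ¬ Gd e {a, b, c, d}) →
    2 * D.card ≤ dg e D c + (dg e D a + dg e D b) ∧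
    (e c a + e c b = 0 → 2 * D.card = dg e D c + (dg e D a + dg e D b) →
      Even (dg e D a + dg e D b))

/-- PL, the pair lemma. PROOF. Let `W = C ∪ D ∪ {a,b}` (`4k` vertices). As
`∑ c ∈ C, t(c) = d_C(a) + d_C(b) < 2|C|` some `c0 ∈ C` has `t(c0) ≤ 1`; similarly `d0 ∈ D`. Suppose
no `{a,b,c,d}` is good. HP with `c0` and `D`: `2|D| ≤ d_D(c0) + d_D(a) + d_D(b)`; HP with `d0` and
`C` (`{a,b,d0,c} = {a,b,c,d0}`): `2|C| ≤ d_C(d0) + d_C(a) + d_C(b)`. Degrees: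
`d_C(a) + d_D(a) ≤ 2k - 1`, the same for `b`, `d_D(c0) + t(c0) ≤ 2k - 1`,
`d_C(d0) + t(d0) ≤ 2k - 1`, and `|C| + |D| = 4k - 2`. So there is equality everywhere:
`t(c0) = 0`, `d_D(c0) = 2k - 1`, `2|D| = 2k - 1 + d_D(a) + d_D(b)`; but `d_D(a) + d_D(b)` is even by
HP, contradiction (`omega` after the two bounds and the parity). -/
def T_PL : Prop := ∀ (V : Type) [DecidableEq V] (e : V → V → ℕ) (C D : Finset V) (a b : V) (k : ℕ),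
  Sym e → a ≠ b → a ∉ C → a ∉ D → b ∉ C → b ∉ D → Disjoint C D → C.card + D.card + 2 = 4 * k →
  e a b = 0 →
  (∀ v, v = a ∨ v = b ∨ v ∈ C ∨ v ∈ D → dg e C v + dg e D v + (e v a + e v b) + 1 ≤ 2 * k) →
  dg e C a + dg e C b < 2 * C.card → dg e D a + dg e D b < 2 * D.card →
    ∃ c ∈ C, ∃ d ∈ D, Gd e {a, b, c, d}

/-- PXY. The pair lemma for a pair with one vertex on each side. PROOF. PL with `C = X.erase x`,
`D = Y.erase y`, `k = p + q + 1`, `a = x`, `b = y`; for `v` in `X ∪ Y` the number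
`d_C(v) + d_D(v) + e v x + e v y` is `d_X(v) + d_Y(v)`. -/
def T_PXY : Prop := ∀ (V : Type) [DecidableEq V] (e : V → V → ℕ) (X Y : Finset V) (p q : ℕ)
  (x y : V), Cfg e X Y p q 2 → x ∈ X → y ∈ Y → e x y = 0 →
  dg e X x + dg e X y < 8 * p + 2 → dg e Y x + dg e Y y < 8 * q + 2 →
    ∃ x' ∈ X, ∃ y' ∈ Y, x' ≠ x ∧ y' ≠ y ∧ Gd e {x, y, x', y'}

/-- PYY. The pair lemma for a pair in `Y`. PROOF. PL with `C = (Y.erase y1).erase y2`, `D = X`,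
`k = p + q + 1`; `e y1 y2 = 0`, so `d_C(y1) = d_Y(y1)` etc. -/
def T_PYY : Prop := ∀ (V : Type) [DecidableEq V] (e : V → V → ℕ) (X Y : Finset V) (p q : ℕ)
  (y1 y2 : V), Cfg e X Y p q 1 → y1 ∈ Y → y2 ∈ Y → y1 ≠ y2 → e y1 y2 = 0 →
  dg e Y y1 + dg e Y y2 < 8 * q + 2 → dg e X y1 + dg e X y2 < 8 * p + 2 →
    ∃ y3 ∈ Y, ∃ x ∈ X, y3 ≠ y1 ∧ y3 ≠ y2 ∧ Gd e {y1, y2, y3, x}

/-! ## Crossing sets -/

/-- CRS. From a good set to `Cross`. PROOF. (1) For `v ∈ X \ Q`: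
`d_{X \ Q}(v) + ∑ w ∈ Q ∩ X, e v w = d_X(v)`, so `d_{X \ Q}(v) ≤ 2p - 1` if `d_X(v) ≤ 2p - 1`, and
also if `d_X(v) = 2p` and some `w ∈ Q ∩ X` has `e v w ≥ 1` (given by `hX`). The same in `Y`.
`Q ⊆ X ∪ Y` and `|Q ∩ X|` are given. -/
def T_CRS : Prop := ∀ (V : Type) [DecidableEq V] (e : V → V → ℕ) (X Y Q : Finset V) (p q r : ℕ),
  Gd e Q → Q ⊆ X ∪ Y → (Q ∩ X).card = r → (∀ v ∈ X, dg e X v ≤ 2 * p) →
  (∀ v ∈ Y, dg e Y v ≤ 2 * q) →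
  (∀ v ∈ X, v ∉ Q → dg e X v = 2 * p → ∃ w ∈ Q, w ∈ X ∧ 1 ≤ e v w) →
  (∀ v ∈ Y, v ∉ Q → dg e Y v = 2 * q → ∃ w ∈ Q, w ∈ Y ∧ 1 ≤ e v w) → Cross e X Y p q r

/-- FIN. PROOF. `Q` from `Cross`. `|X \ Q| = 4p`, `|Y \ Q| = 4q` (`|Q| = 4`, FU (6)), so both are
`Fact` by the induction hypotheses; FU (4). -/
def T_FIN : Prop := ∀ (V : Type) [DecidableEq V] (e : V → V → ℕ) (X Y : Finset V) (p q r : ℕ),
  r ≤ 4 → Cfg e X Y p q r → Cross e X Y p q r → MG4 V p → MG4 V q → Fact e (X ∪ Y)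

/-! ## Type (1,3) -/

/-- A. PROOF. `∑ x ∈ X, (e x u1 + e x u2 + e x u3) = ∑ d_X(ui) ≤ 3(2p + 1) < 2(4p + 1)`
(`p ≥ 1`; `dt` gives `d_X(ui) ≤ 2p + 1`), so some `x` has sum at most `1`, and `{x,u1,u2,u3}` is
good (`Lin e x u1 u2 u3`, or with `u2` or `u3` in the place of `u1`). -/
def T_A : Prop := ∀ (V : Type) [DecidableEq V] (e : V → V → ℕ) (X Y : Finset V) (p q : ℕ)
  (u1 u2 u3 : V), Cfg e X Y p q 1 → 1 ≤ p → u1 ∈ Y → u2 ∈ Y → u3 ∈ Y →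
    u1 ≠ u2 → u1 ≠ u3 → u2 ≠ u3 → dg e Y u1 = 2 * q → dg e Y u2 = 2 * q → dg e Y u3 = 2 * q →
    e u1 u2 = 0 → e u1 u3 = 0 → e u2 u3 = 0 → ∃ x ∈ X, Gd e {u1, u2, u3, x}

/-- D. PROOF. Let `N` be the set of `y ∈ Y`, `y ≠ u`, `e u y = 0`; `|N| ≥ 4q + 2 - 2q = 2q + 2`.
Suppose the conclusion fails. For `y2 ∈ N`, PYY for `u, y2` cannot apply; as
`d_Y(u) + d_Y(y2) ≤ 4q`, we get `d_X(u) + d_X(y2) ≥ 8p + 2`, and `d_X(u) ≤ 2p + 1`, so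
`d_X(y2) ≥ 6p + 1`. As `d_X(y2) ≤ 2p + 2q + 1`: `q ≥ 2p`. Counting:
`(2q + 2)(6p + 1) ≤ e(Y,X) = e(X,Y) ≤ (4p + 1)(2p + 2q + 1)`, i.e. `4pq + 6p + 1 ≤ 8p²`, but
`4pq ≥ 8p²`. -/
def T_D : Prop := ∀ (V : Type) [DecidableEq V] (e : V → V → ℕ) (X Y : Finset V) (p q : ℕ)
  (u : V), Cfg e X Y p q 1 → 1 ≤ p → (∀ v ∈ Y, dg e Y v ≤ 2 * q) → u ∈ Y → dg e Y u = 2 * q →
    ∃ y2 ∈ Y, ∃ y3 ∈ Y, ∃ x ∈ X, y2 ≠ u ∧ y3 ≠ u ∧ y3 ≠ y2 ∧ Gd e {u, y2, y3, x}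

/-- EE. PROOF. `q ≥ 1` as `Y` is non-empty. Let `y1 ∈ Y` with `m = d_X(y1)` minimal, `N` the set of
`y ∈ Y`, `y ≠ y1`, `e y1 y = 0`; `|N| ≥ 4q + 2 - (2q - 1) = 2q + 3`. Suppose the conclusion fails;
PYY for `y1`, `y2 ∈ N` cannot apply, so `d_X(y2) ≥ 8p + 2 - m`. If `m ≥ 4p + 1`: `dt` for `y1`
gives `p ≤ q`, and `(4q + 3)(4p + 1) ≤ e(Y,X) = e(X,Y) ≤ (4p + 1)(2p + 2q + 1)` gives `q < p`. If
`m ≤ 4p`: `4p + 2 ≤ 8p + 2 - m ≤ 2p + 2q + 1` gives `p < q`, and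
`(2q + 3)(8p + 2 - m) + 2qm ≤ e(Y,X) ≤ (4p + 1)(2p + 2q + 1)` (the sum over `N` and the rest: all
terms are at least `m`, those of `N` at least `8p + 2 - m ≥ m`), so
`8pq + 2q + 6p + 5 ≤ 8p²`, contradiction. -/
def T_EE : Prop := ∀ (V : Type) [DecidableEq V] (e : V → V → ℕ) (X Y : Finset V) (p q : ℕ),
  Cfg e X Y p q 1 → 1 ≤ p → (∀ v ∈ Y, dg e Y v + 1 ≤ 2 * q) →
    ∃ y1 ∈ Y, ∃ y2 ∈ Y, ∃ y3 ∈ Y, ∃ x ∈ X, y1 ≠ y2 ∧ y1 ≠ y3 ∧ y2 ≠ y3 ∧ Gd e {y1, y2, y3, x}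

/-- T13. Type (1,3). PROOF. Let `U` be the set of `u ∈ Y` with `d_Y(u) = 2q`. If three different
vertices of `U` are pairwise non-adjacent: A gives `Q`, and every `u ∈ U` outside of `Q` is
adjacent to one of the three (I4, first conclusion). Else, if two vertices `u1, u2 ∈ U` are
non-adjacent: PYY (`d_Y(u1) + d_Y(u2) = 4q`, `d_X(u1) + d_X(u2) ≤ 4p + 2 < 8p + 2`), and every other
`u ∈ U` is adjacent to `u1` or `u2`. Else, if `U` has an element `u`: D, and the others are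
adjacent to `u`. Else EE. In all cases CRS with `r = 1`: `Q ∩ X = {x}`. -/
def T_T13 : Prop := ∀ (V : Type) [DecidableEq V] (e : V → V → ℕ) (X Y : Finset V) (p q : ℕ),
  Opt e X Y → Cfg e X Y p q 1 → (∀ v ∈ X, dg e X v + 1 ≤ 2 * p) → (∀ v ∈ Y, dg e Y v ≤ 2 * q) →
    Cross e X Y p q 1

/-! ## Type (2,2) -/

/-- P0. The case `p = 0`. PROOF. `X = {x1,x2}`, `e x1 x2 = 0`. `t(y) = e y x1 + e y x2`,
`∑ y ∈ Y, t(y) = d_Y(x1) + d_Y(x2) ≤ 2(2q + 1) = |Y|`. If some `u ∈ Y` has `d_Y(u) = 2q`, then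
`t(u) = d_X(u) ≤ 1`; put `y1 = u`. Else take `y1 ∈ Y` with `t(y1) ≤ 1`. If all `{x1,x2,y1,y2}`,
`y2 ∈ Y - y1`, are bad, HP gives
`2(4q + 1) ≤ d_Y(y1) + d_Y(x1) + d_Y(x2) - t(y1) ≤ 2q + 4q + 2`, contradiction with `q ≥ 1`. So
some `Q = {x1,x2,y1,y2}` is good. CRS: `X \ Q = ∅`; vertices `v ∈ Y` with `d_Y(v) = 2q` other than
`y1` are adjacent to `y1 = u` by `hU`. -/
def T_P0 : Prop := ∀ (V : Type) [DecidableEq V] (e : V → V → ℕ) (X Y : Finset V) (q : ℕ),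
  Cfg e X Y 0 q 2 → 1 ≤ q → (∀ v ∈ X, dg e X v = 0) → (∀ v ∈ Y, dg e Y v ≤ 2 * q) →
  (∀ u1 ∈ Y, ∀ u2 ∈ Y, u1 ≠ u2 → dg e Y u1 = 2 * q → dg e Y u2 = 2 * q → 1 ≤ e u1 u2) →
    Cross e X Y 0 q 2

/-- HA1. One half of case A1. PROOF. The set of `x ∈ X`, `x ≠ x1`, `e x1 x = 0` has at least
`4p + 1 - 2p = 2p + 1` elements, and the sum of `e x y1` over it is at most
`d_X(y1) - e x1 y1 ≤ 2p` (`dt` and `d_Y(y1) = 2q`), so it contains `x2` with `e x2 y1 = 0`. If all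
`{x1,x2,y1,y2}`, `y2 ∈ Y - y1`, are bad: HP (pair `x1,x2`, `c = y1`, `t(y1) = 1`,
`D = Y.erase y1`): `2(4q + 1) ≤ d_Y(y1) + (d_Y(x1) - 1) + d_Y(x2) ≤ 2q + 2q + 2p + 2q + 1`, so
`2q + 1 ≤ 2p`. -/
def T_HA1 : Prop := ∀ (V : Type) [DecidableEq V] (e : V → V → ℕ) (X Y : Finset V) (p q : ℕ)
  (x1 y1 : V), Cfg e X Y p q 2 → x1 ∈ X → y1 ∈ Y → dg e X x1 = 2 * p → dg e Y y1 = 2 * q →
  e x1 y1 = 1 → p ≤ q → ∃ x2 ∈ X, ∃ y2 ∈ Y, x2 ≠ x1 ∧ y2 ≠ y1 ∧ Gd e {x1, x2, y1, y2}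

/-- CSW. `Cfg` with `r = 2` is symmetric. PROOF. Clear. -/
def T_CSW : Prop := ∀ (V : Type) [DecidableEq V] (e : V → V → ℕ) (X Y : Finset V) (p q : ℕ),
  (Cfg e X Y p q 2 → Cfg e Y X q p 2) ∧
  (Cfg e X Y p q 2 → Cross e Y X q p 2 → Cross e X Y p q 2)

/-- AA. Case A. PROOF. `e x1 y1 = 0`: PXY, as `d_X(x1) + d_X(y1) ≤ 2p + (2p + 1) < 8p + 2` and
`d_Y(x1) + d_Y(y1) ≤ 4q + 1 < 8q + 2`. `e x1 y1 = 1`: HA1 if `p ≤ q`, HA1 with the sides exchanged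
(CSW) if `q ≤ p`. -/
def T_AA : Prop := ∀ (V : Type) [DecidableEq V] (e : V → V → ℕ) (X Y : Finset V) (p q : ℕ)
  (x1 y1 : V), Cfg e X Y p q 2 → x1 ∈ X → y1 ∈ Y → dg e X x1 = 2 * p → dg e Y y1 = 2 * q →
  e x1 y1 ≤ 1 → ∃ x2 ∈ X, ∃ y2 ∈ Y, x2 ≠ x1 ∧ y2 ≠ y1 ∧ Gd e {x1, y1, x2, y2}

/-- BB. Case B. PROOF. Suppose the conclusion fails. For every `y1 ∈ Y` with `e x1 y1 = 0`, PXY
cannot apply; `d_Y(x1) + d_Y(y1) ≤ (2q + 1) + (2q - 1) = 4q`, so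
`d_X(y1) ≥ 8p + 2 - 2p = 6p + 2`. There are at least `4q + 2 - (2q + 1) = 2q + 1` such `y1`. So
`6p + 2 ≤ 2p + 2q + 1`, i.e. `q ≥ 2p + 1`, and
`(2q + 1)(6p + 2) ≤ e(Y,X) = e(X,Y) ≤ (4p + 2)(2p + 2q + 1)`, i.e. `4pq ≤ 8p² + 2p`, so
`4q ≤ 8p + 2` (`p ≥ 1`), contradiction. -/
def T_BB : Prop := ∀ (V : Type) [DecidableEq V] (e : V → V → ℕ) (X Y : Finset V) (p q : ℕ)
  (x1 : V), Cfg e X Y p q 2 → 1 ≤ p → x1 ∈ X → dg e X x1 = 2 * p →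
  (∀ v ∈ Y, dg e Y v + 1 ≤ 2 * q) →
    ∃ y1 ∈ Y, ∃ x2 ∈ X, ∃ y2 ∈ Y, x2 ≠ x1 ∧ y2 ≠ y1 ∧ Gd e {x1, y1, x2, y2}

/-- CC. Case C. PROOF. Suppose the conclusion fails. For non-adjacent `x1 ∈ X`, `y1 ∈ Y` PXY
cannot apply, so `d_X(y1) ≥ 8p + 2 - (2p - 1) = 6p + 3` or `d_Y(x1) ≥ 6q + 3`. If `q ≤ 2p` the
first is impossible (`d_X(y1) ≤ 2p + 2q + 1 ≤ 6p + 1`), so every `x ∈ X` has `d_Y(x) ≥ 4q + 2`
(either it is adjacent to all of `Y`, or `d_Y(x) ≥ 6q + 3`); so `4q + 2 ≤ 2p + 2q + 1`, `q < p`,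
and by counting some `y ∈ Y` has `d_X(y) ≥ 4p + 2`, so `p < q`, contradiction. If `q > 2p` then
`p ≤ 2q` and the same with the sides exchanged. -/
def T_CC : Prop := ∀ (V : Type) [DecidableEq V] (e : V → V → ℕ) (X Y : Finset V) (p q : ℕ),
  Cfg e X Y p q 2 → (∀ v ∈ X, dg e X v + 1 ≤ 2 * p) → (∀ v ∈ Y, dg e Y v + 1 ≤ 2 * q) →
    ∃ x1 ∈ X, ∃ y1 ∈ Y, ∃ x2 ∈ X, ∃ y2 ∈ Y, x2 ≠ x1 ∧ y2 ≠ y1 ∧ Gd e {x1, y1, x2, y2}

/-- T22. Type (2,2). PROOF. `p = q = 0` is excluded. `p = 0`: P0 (`hU` from I2 for `Y`, OSW, CSW).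
`q = 0`: the same with the sides exchanged, CSW. `p, q ≥ 1`: by I2 the vertices of `X` with
`d_X = 2p` are pairwise adjacent, the same in `Y`. If both sides have such vertices `x1`, `y1`:
SW gives `2 e(x1,y1) ≤ d_Y(x1) + d_X(y1) - 2p - 2q ≤ 2`, AA, CRS. If only `X` has one: BB, CRS. If
only `Y`: BB exchanged. If none: CC, CRS. (`Q = {x1,y1,x2,y2}`, `Q ∩ X = {x1,x2}`.) -/
def T_T22 : Prop := ∀ (V : Type) [DecidableEq V] (e : V → V → ℕ) (X Y : Finset V) (p q : ℕ),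
  Opt e X Y → Cfg e X Y p q 2 → 1 ≤ p + q → (∀ v ∈ X, dg e X v ≤ 2 * p) →
  (∀ v ∈ Y, dg e Y v ≤ 2 * q) → Cross e X Y p q 2

/-! ## Assembly -/

/-- MAIN. PROOF. `Star` for `X` and `Y` (STAR, OSW). Put `m = |X|`. `m % 4 = 0`: `|X| = 4p`,
`|Y| = 4q`, `p, q ≥ 1`, `p, q < k`; DEG gives degrees at most `2p - 1`, `2q - 1`
(`4d + 3 ≤ 8p`); both sides `Fact` by the induction hypothesis, FU (1). `m % 4 = 1`: `|X| = 4p + 1`,
`|Y| = 4q + 3`, `k = p + q + 1`, DEG: `4d + 3 ≤ 8p + 2` gives `d ≤ 2p - 1` and `4d + 3 ≤ 8q + 6`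
gives `d ≤ 2q`; T13, FIN. `m % 4 = 3`: exchange (OSW, `union_comm`). `m % 4 = 2`: T22, FIN
(`p + q ≥ 1` as `k ≥ 2`). The bound `dt` of `Cfg`: `d_X(v) + d_Y(v) = d_{X ∪ Y}(v) ≤ 2k - 1`. -/
def T_MAIN : Prop := ∀ (V : Type) [DecidableEq V] (e : V → V → ℕ) (X Y : Finset V) (k : ℕ),
  2 ≤ k → (X ∪ Y).card = 4 * k → (∀ v ∈ X ∪ Y, dg e (X ∪ Y) v + 1 ≤ 2 * k) → Opt e X Y →
  (∀ j < k, MG4 V j) → Fact e (X ∪ Y)

/-- MG. PROOF. Strong induction on `k`. `k = 0`: FU (5). `k = 1`: K1. `k ≥ 2`: SAT gives `e'` and a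
cut, OPT an optimal cut, MAIN `Fact e' S`, FU (3) `Fact e S`. -/
def T_MG : Prop := ∀ (V : Type) [DecidableEq V] (k : ℕ), MG4 V k

/-! ## Digraphs -/

/-- PTH. Every tournament on four vertices contains every oriented path on four vertices. PROOF.
By inspection: `T` is given by six Booleans, the path by three; `decide` over `Fin 4 → Fin 4`
(for example first state it for `m : Fin 4 → Fin 4 → Bool`, or use that one of the vertices has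
out-degree at least two etc.). `s i = true` means that the arc goes from `g i` to `g (i+1)`. -/
def T_PTH : Prop := ∀ (T : Digraph (Fin 4)), Pool.Agent.MGT.Tour T → ∀ s1 s2 s3 : Bool,
  ∃ g : Fin 4 → Fin 4, Function.Injective g ∧
    (if s1 then T.Adj (g 0) (g 1) else T.Adj (g 1) (g 0)) ∧
    (if s2 then T.Adj (g 1) (g 2) else T.Adj (g 2) (g 1)) ∧
    (if s3 then T.Adj (g 2) (g 3) else T.Adj (g 3) (g 2))

/-- EMB. PROOF. `Q = {a,b,c,d}` with `Lin (mis D) a b c d`. Between `a` and `b` at least one arc of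
`D` is present; let `s1` be true iff `D.Adj a b`, `s2` iff `D.Adj b c`, `s3` iff `D.Adj c d`. PTH
gives `g`; as `g` is a bijection, send `g 0 ↦ a`, `g 1 ↦ b`, `g 2 ↦ c`, `g 3 ↦ d`. Arcs of `T`
inside the path: the arc of `T` between `g 0` and `g 1` has the direction of an arc of `D`
(tournament: only this one); the other pairs have `mis = 0`, so both arcs are in `D`. (Facts on
`mis`: `Pool.Agent.MGT.T_MIS`.) -/
def T_EMB : Prop := ∀ (V : Type) [DecidableEq V] (D : Digraph V) (Q : Finset V),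
  Gd (Pool.Agent.MGT.mis D) Q → ∀ T : Digraph (Fin 4), Pool.Agent.MGT.Tour T →
    ∃ f : Fin 4 → V, Function.Injective f ∧ (∀ i, f i ∈ Q) ∧
      ∀ i j, T.Adj i j → D.Adj (f i) (f j)

/-- FAM. PROOF. Induction on `Fact`: `S = ∅` gives `k = 0`. `Q ∪ S`: `|Q| = 4` (FU (6)), so
`k = k' + 1`, `|S| = 4k'`; `Fin.cons Q P`. -/
def T_FAM : Prop := ∀ (V : Type) [DecidableEq V] (e : V → V → ℕ) (S : Finset V) (k : ℕ),
  Fact e S → S.card = 4 * k → ∃ P : Fin k → Finset V, (∀ i, P i ⊆ S ∧ Gd e (P i)) ∧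
    ∀ i j, i ≠ j → Disjoint (P i) (P j)

end Pool.Agent.MGF
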